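import Pool.Graph.R_pool_sql_team_seeded_2aa45f1a.Q232.CT.BM

/-!
The equality case of the Brunn-Minkowski inequality in the plane, from the one in the space.
-/

set_option autoImplicit false

open MeasureTheory Set
open scoped ENNReal Pointwise

namespace Pool.Agent.H26.WS

/-- the map from the space to the plane and the line -/
def pj (x : Fin 3 → ℝ) : (ℝ × ℝ) × ℝ := ((x 0, x 1), x 2)

/-- the cylinder over a set -/
def cyl (A : Set (ℝ × ℝ)) : Set (Fin 3 → ℝ) := {x | (x 0, x 1) ∈ A ∧ x 2 ∈ Icc (0 : ℝ) 1}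

theorem vol_cyl {A : Set (ℝ × ℝ)} (hA : MeasurableSet A) : volume (cyl A) = volume A := by
  have h1 := volume_preserving_piFinSuccAbove (fun _ : Fin 3 => ℝ) 2
  have h2 := volume_preserving_finTwoArrow ℝ
  have h3 : MeasurePreserving (Prod.map id (MeasurableEquiv.finTwoArrow (α := ℝ)))
      (volume : Measure (ℝ × (Fin 2 → ℝ))) (volume : Measure (ℝ × (ℝ × ℝ))) :=
    (MeasurePreserving.id (volume : Measure ℝ)).prod h2
  have h4 := h3.comp h1
  have e : cyl A = (Prod.map id (MeasurableEquiv.finTwoArrow (α := ℝ)) ∘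
      MeasurableEquiv.piFinSuccAbove (fun _ : Fin 3 => ℝ) 2) ⁻¹' (Icc (0 : ℝ) 1 ×ˢ A) := by
    ext x
    simp only [cyl, mem_setOf_eq, mem_preimage, Function.comp, Prod.map, mem_prod, id]
    constructor
    · rintro ⟨h, h'⟩
      exact ⟨h', h⟩
    · rintro ⟨h, h'⟩
      exact ⟨h', h⟩
  rw [e, h4.measure_preimage (measurableSet_Icc.prod hA).nullMeasurableSet,
    Measure.volume_eq_prod, Measure.prod_prod, Real.volume_Icc]
  simp

theorem cyl_compact {A : Set (ℝ × ℝ)} (hA : IsCompact A) : IsCompact (cyl A) := by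
  have h : cyl A = (fun p : (ℝ × ℝ) × ℝ => ![p.1.1, p.1.2, p.2]) '' (A ×ˢ Icc (0 : ℝ) 1) := by
    ext x
    constructor
    · rintro ⟨h1, h2⟩
      refine ⟨((x 0, x 1), x 2), ⟨h1, h2⟩, ?_⟩
      ext i
      fin_cases i <;> rfl
    · rintro ⟨p, ⟨h1, h2⟩, rfl⟩
      exact ⟨h1, h2⟩
  rw [h]
  apply (hA.prod isCompact_Icc).image
  apply continuous_pi
  intro i
  fin_cases i
  · exact continuous_fst.fst
  · exact continuous_fst.snd
  · exact continuous_snd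

theorem cyl_convex {A : Set (ℝ × ℝ)} (hA : Convex ℝ A) : Convex ℝ (cyl A) := by
  intro x hx y hy a b ha hb hab
  refine ⟨?_, ?_⟩
  · exact hA hx.1 hy.1 ha hb hab
  · exact convex_Icc (0 : ℝ) 1 hx.2 hy.2 ha hb hab

theorem cyl_interior {A : Set (ℝ × ℝ)} (hA : (interior A).Nonempty) :
    (interior (cyl A)).Nonempty := by
  obtain ⟨a, ha⟩ := hA
  refine ⟨![a.1, a.2, 1 / 2], ?_⟩
  rw [mem_interior]
  refine ⟨{x : Fin 3 → ℝ | (x 0, x 1) ∈ interior A ∧ x 2 ∈ Ioo (0 : ℝ) 1}, ?_, ?_, ?_⟩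
  · intro x hx
    exact ⟨interior_subset hx.1, Ioo_subset_Icc_self hx.2⟩
  · apply IsOpen.inter
    · exact isOpen_interior.preimage (by fun_prop)
    · exact isOpen_Ioo.preimage (by fun_prop)
  · refine ⟨ha, ?_⟩
    show (0 : ℝ) < 1 / 2 ∧ (1 / 2 : ℝ) < 1
    norm_num

/-- **the equality case** -/
theorem bm_eq {A B K : Set (ℝ × ℝ)} (hA : IsCompact A) (hAv : Convex ℝ A)
    (hAi : (interior A).Nonempty) (hB : IsCompact B) (hBv : Convex ℝ B)
    (hBi : (interior B).Nonempty) (hKc : IsCompact K)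
    (hm : ∀ x ∈ A, ∀ y ∈ B, (1 / 2 : ℝ) • x + (1 / 2 : ℝ) • y ∈ K)
    (hAB : (volume A).toReal = (volume B).toReal) (hKA : (volume K).toReal ≤ (volume A).toReal) :
    ∃ w : ℝ × ℝ, A = (fun x => x + w) '' B := by
  obtain ⟨w, hw⟩ := Pool.Agent.Q232.CT.bm_eq (A := cyl A) (B := cyl B) (K := cyl K)
    ⟨cyl_compact hA, cyl_convex hAv, cyl_interior hAi⟩
    ⟨cyl_compact hB, cyl_convex hBv, cyl_interior hBi⟩ (cyl_compact hKc)
    (by
      intro x hx y hy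
      have hc : (1 / 2 : ℝ) • x 2 + (1 / 2 : ℝ) • y 2 ∈ Icc (0 : ℝ) 1 :=
        convex_Icc (0 : ℝ) 1 hx.2 hy.2 (by norm_num) (by norm_num) (by norm_num)
      exact ⟨hm _ hx.1 _ hy.1, hc⟩)
    (by rw [vol_cyl hA.measurableSet, vol_cyl hB.measurableSet, hAB])
    (by rw [vol_cyl hA.measurableSet, vol_cyl hKc.measurableSet]; exact hKA)
  refine ⟨(w 0, w 1), ?_⟩
  ext a
  constructor
  · intro ha
    have h1 : ![a.1, a.2, 1 / 2] ∈ cyl A := by
      refine ⟨ha, ?_⟩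
      show (0 : ℝ) ≤ 1 / 2 ∧ (1 / 2 : ℝ) ≤ 1
      norm_num
    rw [hw] at h1
    obtain ⟨y, hy, h2⟩ := h1
    refine ⟨(y 0, y 1), hy.1, ?_⟩
    have e0 := congrFun h2 0
    have e1 := congrFun h2 1
    simp at e0 e1
    exact Prod.ext e0 e1
  · rintro ⟨b, hb, rfl⟩
    -- the third coordinate of `w` is zero
    have hw2 : w 2 = 0 := by
      obtain ⟨a0, ha0⟩ := hAi
      have ha0' := interior_subset ha0
      have k0 : ![b.1, b.2, 0] ∈ cyl B := ⟨hb, (⟨le_refl _, zero_le_one⟩ : (0 : ℝ) ≤ 0 ∧ (0 : ℝ) ≤ 1)⟩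
      have k1 : ![b.1, b.2, 1] ∈ cyl B := ⟨hb, (⟨zero_le_one, le_refl _⟩ : (0 : ℝ) ≤ 1 ∧ (1 : ℝ) ≤ 1)⟩
      have m0 : ![b.1, b.2, 0] + w ∈ cyl A := by rw [hw]; exact ⟨_, k0, rfl⟩
      have m1 : ![b.1, b.2, 1] + w ∈ cyl A := by rw [hw]; exact ⟨_, k1, rfl⟩
      have n0 := m0.2
      have n1 := m1.2
      simp at n0 n1
      linarith [n0.1, n1]
    have k : ![b.1, b.2, 1 / 2] ∈ cyl B :=
      ⟨hb, (⟨by norm_num, by norm_num⟩ : (0 : ℝ) ≤ 1 / 2 ∧ (1 / 2 : ℝ) ≤ 1)⟩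
    have m : ![b.1, b.2, 1 / 2] + w ∈ cyl A := by rw [hw]; exact ⟨_, k, rfl⟩
    exact m.1

end Pool.Agent.H26.WS
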