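import Pool.Agent.H26.AR.Rho

/-!
Wulff shapes of the masses; the areas of the Wulff shapes in terms of the rate function of the area.
-/

set_option autoImplicit false

open MeasureTheory Set Filter Topology
open scoped Pointwise ENNReal

namespace Pool.Agent.H26.WF

open Pool.Agent.T6.H44
open Pool.Agent.Y981.L2 (Lam Rate)
open Pool.Agent.Y981.L2X (M)
open H981 (mu)

/-! ### the Wulff shape of the masses -/

theorem M_lip {e : ℝ} (he : 0 ≤ e) (x y : ℝ × ℝ) :
    M e x ≤ M e y + (e + Real.log mu) * (|x.1 - y.1| + |x.2 - y.2|) := by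
  apply csSup_le (Y981.L2X.M_nonempty he x)
  rintro r ⟨h, hh, rfl⟩
  have h1 := Y981.L2X.le_M y hh
  obtain ⟨h2, h3⟩ := Y981.L2.abs_le_Lam h
  have h4 : h.1 * (x.1 - y.1) ≤ (e + Real.log mu) * |x.1 - y.1| := by
    refine (le_abs_self _).trans ?_
    rw [abs_mul]
    exact mul_le_mul_of_nonneg_right (by linarith) (abs_nonneg _)
  have h5 : h.2 * (x.2 - y.2) ≤ (e + Real.log mu) * |x.2 - y.2| := by
    refine (le_abs_self _).trans ?_
    rw [abs_mul]
    exact mul_le_mul_of_nonneg_right (by linarith) (abs_nonneg _)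
  linarith

theorem M_scale {e : ℝ} (he : 0 ≤ e) {k : ℝ} (hk : 0 ≤ k) (v : ℝ × ℝ) :
    M e (k * v.1, k * v.2) ≤ k * M e v := by
  apply csSup_le (Y981.L2X.M_nonempty he _)
  rintro r ⟨h, hh, rfl⟩
  have h1 := mul_le_mul_of_nonneg_left (Y981.L2X.le_M v hh) hk
  linarith

theorem shape {e : ℝ} (he : 0 < e) :
    {h : ℝ × ℝ | ∀ x : ℤ × ℤ, x ≠ 0 → h.1 * x.1 + h.2 * x.2 ≤ M e ((x.1 : ℝ), (x.2 : ℝ))} =
      Kc e := by
  ext h
  constructor
  · intro hh
    have hh' : ∀ x : ℤ × ℤ, h.1 * x.1 + h.2 * x.2 ≤ M e ((x.1 : ℝ), (x.2 : ℝ)) := by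
      intro x
      rcases eq_or_ne x 0 with rfl | hx
      · have := Y981.L2X.le_M ((((0 : ℤ × ℤ).1 : ℤ) : ℝ), (((0 : ℤ × ℤ).2 : ℤ) : ℝ))
          (show Lam (0, 0) ≤ e by rw [Y981.L2X.Lam_zero]; exact he.le)
        simpa using this
      · exact hh x hx
    have key : ∀ v : ℝ × ℝ, h.1 * v.1 + h.2 * v.2 ≤ M e v := by
      intro v
      obtain ⟨C, hC⟩ : ∃ C, C = 2 * (e + Real.log mu) + |h.1| + |h.2| := ⟨_, rfl⟩
      have hmu := log_mu_nonneg
      have hC0 : 0 < C := by
        rw [hC]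
        have := abs_nonneg h.1
        have := abs_nonneg h.2
        linarith
      have hk : ∀ k : ℕ, 0 < k → h.1 * v.1 + h.2 * v.2 ≤ M e v + C / k := by
        intro k hk
        have hk0 : (0 : ℝ) < k := by exact_mod_cast hk
        obtain ⟨x, hx⟩ : ∃ x : ℤ × ℤ, x = (⌊k * v.1⌋, ⌊k * v.2⌋) := ⟨_, rfl⟩
        have e1 : |(x.1 : ℝ) - k * v.1| ≤ 1 := by
          rw [hx, abs_le]
          have a1 := Int.floor_le (k * v.1)
          have a2 := Int.lt_floor_add_one (k * v.1)
          simp only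
          exact ⟨by linarith, by linarith⟩
        have e2 : |(x.2 : ℝ) - k * v.2| ≤ 1 := by
          rw [hx, abs_le]
          have a1 := Int.floor_le (k * v.2)
          have a2 := Int.lt_floor_add_one (k * v.2)
          simp only
          exact ⟨by linarith, by linarith⟩
        have h1 := hh' x
        have h2 := M_lip he.le ((x.1 : ℝ), (x.2 : ℝ)) (k * v.1, k * v.2)
        have h3 := M_scale he.le hk0.le v
        simp only at h2
        have h4 : (e + Real.log mu) * (|(x.1 : ℝ) - k * v.1| + |(x.2 : ℝ) - k * v.2|) ≤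
            (e + Real.log mu) * 2 :=
          mul_le_mul_of_nonneg_left (by linarith) (by linarith)
        have h5 : h.1 * (k * v.1) ≤ h.1 * x.1 + |h.1| := by
          have : h.1 * (k * v.1 - x.1) ≤ |h.1| := by
            refine (le_abs_self _).trans ?_
            rw [abs_mul, abs_sub_comm]
            exact mul_le_of_le_one_right (abs_nonneg _) e1
          linarith
        have h6 : h.2 * (k * v.2) ≤ h.2 * x.2 + |h.2| := by
          have : h.2 * (k * v.2 - x.2) ≤ |h.2| := by
            refine (le_abs_self _).trans ?_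
            rw [abs_mul, abs_sub_comm]
            exact mul_le_of_le_one_right (abs_nonneg _) e2
          linarith
        have h7 : (h.1 * v.1 + h.2 * v.2) * k ≤ (M e v + C / k) * k := by
          rw [add_mul (M e v), div_mul_cancel₀ _ hk0.ne', hC]
          linarith
        exact le_of_mul_le_mul_right h7 hk0
      apply le_of_forall_pos_le_add
      intro ε hε
      obtain ⟨k, hk1⟩ := exists_nat_gt (C / ε)
      have hk0 : (0 : ℝ) < k := lt_trans (by positivity) hk1
      have h1 := hk k (by exact_mod_cast hk0)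
      have h2 : C / k ≤ ε := by
        rw [div_le_iff₀ hk0]
        rw [div_lt_iff₀ hε] at hk1
        linarith
      linarith
    apply Y981.L2X.Lam_le_of
    intro v hv
    have h1 := Y981.L2X.le_Rate hv he
    have h2 := key v
    linarith
  · intro hh x _
    exact Y981.L2X.le_M ((x.1 : ℝ), (x.2 : ℝ)) hh

/-! ### concavity -/

theorem Kc_combo {E F a b : ℝ} (ha : 0 ≤ a) (hb : 0 ≤ b) (hab : a + b = 1) :
    a • Kc E + b • Kc F ⊆ Kc (a * E + b * F) := by
  rintro _ ⟨_, ⟨x, hx, rfl⟩, _, ⟨y, hy, rfl⟩, rfl⟩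
  have hx' : x ∈ AR.KE Rate E := by rw [KE_eq]; exact hx
  have hy' : y ∈ AR.KE Rate F := by rw [KE_eq]; exact hy
  have : a • x + b • y ∈ AR.KE Rate (a * E + b * F) := by
    intro w hw
    have h1 := mul_le_mul_of_nonneg_left (hx' w hw) ha
    have h2 := mul_le_mul_of_nonneg_left (hy' w hw) hb
    simp only [Prod.fst_add, Prod.snd_add, Prod.smul_fst, Prod.smul_snd, smul_eq_mul]
    have e : a * E + b * F + Rate w = a * (E + Rate w) + b * (F + Rate w) := by
      have : b = 1 - a := by linarith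
      rw [this]
      ring
    linarith
  rw [KE_eq] at this
  exact this

theorem vol_Kc {E : ℝ} (hE : 0 < E) : volume (Kc E) = ENNReal.ofReal (g E ^ 2) := by
  have h := (Kc_props hE).2.1
  unfold g
  rw [Real.sq_sqrt (V_nonneg E)]
  unfold V Measure.real
  rw [ENNReal.ofReal_toReal h.measure_lt_top.ne]

theorem g_concave : ConcaveOn ℝ (Ioi 0) g := by
  refine ⟨convex_Ioi _, ?_⟩
  intro E hE F hF a b ha hb hab
  simp only [smul_eq_mul]
  have hE0 : 0 < E := hE
  have hF0 : 0 < F := hF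
  have hpos : 0 < a * E + b * F := by
    rcases ha.eq_or_lt with h | h
    · have : b = 1 := by linarith
      rw [← h, this]
      simpa using hF0
    · have := mul_pos h hE0
      have := mul_nonneg hb hF0.le
      linarith
  obtain ⟨-, cE, iE⟩ := Kc_props hE0
  obtain ⟨-, cF, iF⟩ := Kc_props hF0
  have nE : (Kc E).Nonempty := ⟨0, interior_subset iE⟩
  have nF : (Kc F).Nonempty := ⟨0, interior_subset iF⟩
  have hfr : Module.finrank ℝ (ℝ × ℝ) = 2 := by simp
  have hbm := Pool.Agent.Helper14K9.Iso.bm_pow (volume : Measure (ℝ × ℝ)) (cE.smul a) (cF.smul b)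
    (nE.smul_set) (nF.smul_set) (mul_nonneg ha (g_nonneg E)) (mul_nonneg hb (g_nonneg F))
    (by
      rw [hfr, Measure.addHaar_smul, hfr, vol_Kc hE0, ← ENNReal.ofReal_mul (by positivity),
        abs_of_nonneg (by positivity), mul_pow])
    (by
      rw [hfr, Measure.addHaar_smul, hfr, vol_Kc hF0, ← ENNReal.ofReal_mul (by positivity),
        abs_of_nonneg (by positivity), mul_pow])
  rw [hfr] at hbm
  have h2 := hbm.trans (measure_mono (Kc_combo ha hb hab))
  rw [vol_Kc hpos, ENNReal.ofReal_le_ofReal_iff (by positivity)] at h2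
  exact (sq_le_sq₀ (by have := g_nonneg E; have := g_nonneg F; positivity) (g_nonneg _)).1 h2

/-- growth of `g` -/
theorem g_growth : ∃ C : ℝ, ∀ᶠ E : ℝ in atTop, 2 * E - C ≤ g E := by
  have hL : Tendsto (fun L : ℝ => Real.exp (-L)) atTop (𝓝 0) := Real.tendsto_exp_neg_atTop_nhds_zero
  have he1 : Real.exp (-1) < 1 := by
    rw [← Real.exp_zero]
    exact Real.exp_lt_exp.2 (by norm_num)
  obtain ⟨L, hL1, hL2⟩ := ((hL.eventually_lt_const
    (show (0 : ℝ) < (1 - Real.exp (-1)) / 4 by linarith)).and (eventually_ge_atTop 1)).exists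
  have hM1 : ∀ᶠ M : ℝ in atTop, Real.exp (-M) < (1 - Real.exp (-1)) / 4 :=
    hL.eventually_lt_const (by linarith)
  have hsh : Tendsto (fun E : ℝ => E + Real.log mu) atTop atTop := tendsto_atTop_add_const_right _ _ tendsto_id
  refine ⟨4 - 2 * Real.log mu, ?_⟩
  filter_upwards [hsh.eventually hM1, hsh.eventually (eventually_ge_atTop (L + 2)),
    hsh.eventually (eventually_ge_atTop ((L - 1) ^ 2 + 1))] with E h1 h2 h3
  have hc := cross (E := E) (δ := 1) (L := L) (by norm_num) hL2 (by linarith) (by linarith)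
  obtain ⟨m, hm⟩ : ∃ m, m = E + Real.log mu := ⟨_, rfl⟩
  rw [← hm] at hc h1 h2 h3
  have h4 : (2 * (m - 2)) ^ 2 ≤ V E := by nlinarith
  have h5 : 2 * (m - 2) ≤ g E := Real.le_sqrt_of_sq_le h4
  linarith

/-- **duality** -/
theorem dual {E : ℝ} (hE : 0 < E) :
    IsGLB ((fun u : ℝ => (RR u + 2 * E) / √u) '' Ioc 0 (1 / 4)) (2 * g E) := by
  constructor
  · rintro _ ⟨u, hu, rfl⟩
    have hs : 0 < √u := Real.sqrt_pos.2 hu.1
    have h1 := le_rho hs.le (sqrt_mem ⟨hu.1.le, hu.2⟩).2 hE
    rw [← RR_eq hu.1.le] at h1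
    simp only
    rw [le_div_iff₀ hs]
    linarith
  · intro c hc
    obtain ⟨s, hs⟩ := AR.ModFRM.exists_slope (g_concave.neg) (show E / 2 ∈ Ioi (0 : ℝ) by
      simp only [mem_Ioi]; linarith) (show 2 * E ∈ Ioi (0 : ℝ) by simp only [mem_Ioi]; linarith)
      (show E ∈ Ioi (0 : ℝ) from hE) (by linarith) (by linarith)
    obtain ⟨m, hm⟩ : ∃ m, m = -s := ⟨_, rfl⟩
    have hg : ∀ y : ℝ, 0 < y → g y ≤ g E + m * (y - E) := by
      intro y hy
      have := hs y hy
      simp only [Pi.neg_apply] at this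
      rw [hm]
      linarith
    have hm2 : 2 ≤ m := by
      by_contra hcon
      push Not at hcon
      obtain ⟨C, hC⟩ := g_growth
      obtain ⟨y, hy1, hy2, hy3⟩ := (hC.and ((eventually_gt_atTop 0).and
        (eventually_gt_atTop ((g E - m * E + C) / (2 - m))))).exists
      have h1 := hg y hy2
      rw [div_lt_iff₀ (by linarith)] at hy3
      nlinarith
    have hm0 : 0 < m := by linarith
    have hr0 : 0 < 1 / m := by positivity
    have hr1 : 1 / m ≤ 1 / 2 := one_div_le_one_div_of_le (by norm_num) hm2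
    have h1 : rho (1 / m) ≤ 2 * (1 / m * g E) - 2 * E := by
      apply rho_le
      intro y hy
      have h2 := mul_le_mul_of_nonneg_left (hg y hy) hr0.le
      have h3 : 1 / m * (g E + m * (y - E)) = 1 / m * g E + (y - E) := by
        field_simp
      rw [h3] at h2
      linarith
    have hmem : (1 / m) ^ 2 ∈ Ioc (0 : ℝ) (1 / 4) := by
      refine ⟨by positivity, ?_⟩
      nlinarith
    have h2 := hc ⟨(1 / m) ^ 2, hmem, rfl⟩
    simp only at h2
    rw [Real.sqrt_sq hr0.le, ← rho_eq hr0.le] at h2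
    refine h2.trans ?_
    rw [div_le_iff₀ hr0]
    linarith

end Pool.Agent.H26.WF
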