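import Pool.Agent.H26.AR.Planar
import Pool.Graph.R_seed8.H354R3.ZN.PLZ
import Pool.Graph.R_seed8.H354R3.ZN.GRE
import Pool.Graph.R_seed8.H354R3.ZN.HDZ
import Pool.Graph.R_seed8.H354R3.ZN.HH
import Pool.Graph.R_seed8.H354R3.ZN.SAND
import Pool.Graph.R_pool_sql_team_seeded_47a924f7.T6.H44.AR.SYM
import Pool.Graph.R_pool_sql_team_seeded_47a924f7.T6.H44.AR.ARR
import Pool.Graph.R_pool_sql_team_seeded_47a924f7.T6.H44.AR.WUL
import Pool.Graph.R_pool_sql_team_seeded_47a924f7.T6.H44.AR.BMG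
import Pool.Graph.R_pool_sql_team_seeded_47a924f7.T6.H44.AR.APX
import Pool.Graph.R_pool_sql_team_seeded_47a924f7.T6.H44.AR.LEG
import Pool.Graph.R_pool_sql_team_seeded_47a924f7.T6.H44.AR.KEP
import Pool.Graph.R_pool_sql_team_seeded_47a924f7.T6.H44.AR.PZ
import Pool.Graph.R_pool_sql_team_seeded_47a924f7.T6.H44.AR.FRM
import Pool.Graph.R_pool_sql_team_seeded_47a924f7.T6.H44.PG.Lmb

/-!
The formula for the variational problem of the area.
-/

set_option autoImplicit false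

open MeasureTheory Set Filter Topology

namespace Pool.Agent.H26.WF

open Pool.Agent.T6.H44

theorem pz : AR.StmtPZ :=
  AR.pz (H354ZN.t_PLZ H354ZN.t_GRE H354ZN.t_HDZ H354ZN.t_HH) H354ZN.t_SAND

theorem frm : AR.StmtFRM :=
  AR.frm AR.sym AR.arr (AR.wul H26.AR.wz) (AR.bmg (AR.wul H26.AR.wz) H26.AR.vz) (AR.apx H26.AR.wz H26.AR.vz pz) AR.leg AR.kep

/-- the sublevel sets of `Lam` -/
theorem KE_eq (E : ℝ) : AR.KE Y981.L2.Rate E = {h | Y981.L2.Lam h ≤ E} := by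
  ext h
  exact (PG.lam_iff h E).symm

theorem wulff {u : ℝ} (hu : 0 < u) (hu4 : u < 1 / 4) :
    BddAbove ((fun E : ℝ => 2 * √(u * volume.real {h | Y981.L2.Lam h ≤ E}) - 2 * E) '' Ioi 0) ∧
    PG.Phi u =
      sSup ((fun E : ℝ => 2 * √(u * volume.real {h | Y981.L2.Lam h ≤ E}) - 2 * E) '' Ioi 0) := by
  have h := frm Y981.L2.Rate PG.rt_rate u hu hu4
  simp only [KE_eq] at h
  exact h

end Pool.Agent.H26.WF
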