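import Pool.Agent.H26.AR.Rho

/-!
The large deviation principle for the area.
-/

set_option autoImplicit false

open MeasureTheory Set Filter Topology
open scoped Pointwise ENNReal

namespace Pool.Agent.H26.WF

open Pool.Agent.T6.H44
open Pool.Agent.Y981.L2 (Lam Rate par ln area loops_finite)
open H981 (IsLoop)
open H981 (mu)

/-- the area is at most `n ^ 2 / 4` -/
theorem area_quarter {n : ℕ} (hn : 1 ≤ n) {f : ZMod (2 * n) → ℤ × ℤ} (hf : IsLoop (2 * n) f) :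
    (area (2 * n) f : ℝ) ≤ 1 / 4 * (n : ℝ) ^ 2 := by
  rcases Nat.eq_zero_or_pos (area (2 * n) f) with h0 | h0
  · rw [h0]
    simp
  · have ha : (0 : ℝ) < area (2 * n) f := by exact_mod_cast h0
    have hs : 0 < √(area (2 * n) f : ℝ) := Real.sqrt_pos.2 ha
    have hc := Pool.Agent.T6.H53.AL.area_cover hn hs
      (show f ∈ {f : ZMod (2 * n) → ℤ × ℤ | IsLoop (2 * n) f ∧
        √(area (2 * n) f : ℝ) ^ 2 ≤ area (2 * n) f} from ⟨hf, by rw [Real.sq_sqrt ha.le]⟩)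
    rw [Set.mem_iUnion₂] at hc
    obtain ⟨p, hp, hfp⟩ := hc
    rw [Finset.mem_filter, Finset.mem_product, Finset.mem_Icc, Finset.mem_Icc,
      Real.sq_sqrt ha.le] at hp
    have hle := Pool.Agent.T6.H53.AL.wh_le hn (A := p.1) (B := p.2)
      (by exact_mod_cast hp.1.1.1) ⟨f, hfp⟩
    have hle' : (p.1 : ℝ) + p.2 ≤ n := by exact_mod_cast hle
    have h1 : (0 : ℝ) ≤ p.1 := Nat.cast_nonneg _
    have h2 : (0 : ℝ) ≤ p.2 := Nat.cast_nonneg _
    nlinarith [hp.2, sq_nonneg ((p.1 : ℝ) - p.2)]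

/-- the probability that the area is in `S` -/
noncomputable def pr (n : ℕ) (S : Set ℝ) : ℝ :=
  ({f : ZMod (2 * n) → ℤ × ℤ | IsLoop (2 * n) f ∧ (area (2 * n) f : ℝ) ∈ S}.ncard : ℝ) /
    ({f : ZMod (2 * n) → ℤ × ℤ | IsLoop (2 * n) f}.ncard : ℝ)

theorem pr_Ici (n : ℕ) (r : ℝ) : pr n (Ici r) = par n r := rfl

theorem fin_S {n : ℕ} (hn : 1 ≤ n) (S : Set ℝ) :
    {f : ZMod (2 * n) → ℤ × ℤ | IsLoop (2 * n) f ∧ (area (2 * n) f : ℝ) ∈ S}.Finite :=
  (loops_finite hn).subset fun _ hf => hf.1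

theorem pr_nonneg (n : ℕ) (S : Set ℝ) : 0 ≤ pr n S := by unfold pr; positivity

theorem pr_mono {n : ℕ} (hn : 1 ≤ n) {S T : Set ℝ} (h : S ⊆ T) : pr n S ≤ pr n T := by
  unfold pr
  apply div_le_div_of_nonneg_right _ (Nat.cast_nonneg _)
  have h1 := Set.ncard_le_ncard
    (s := {f : ZMod (2 * n) → ℤ × ℤ | IsLoop (2 * n) f ∧ (area (2 * n) f : ℝ) ∈ S})
    (t := {f : ZMod (2 * n) → ℤ × ℤ | IsLoop (2 * n) f ∧ (area (2 * n) f : ℝ) ∈ T})
    (fun f hf => ⟨hf.1, h hf.2⟩) (fin_S hn T)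
  exact_mod_cast h1

theorem pr_le_one {n : ℕ} (hn : 1 ≤ n) (S : Set ℝ) : pr n S ≤ 1 := by
  unfold pr
  apply div_le_one_of_le₀ _ (Nat.cast_nonneg _)
  have h1 := Set.ncard_le_ncard
    (s := {f : ZMod (2 * n) → ℤ × ℤ | IsLoop (2 * n) f ∧ (area (2 * n) f : ℝ) ∈ S})
    (t := {f : ZMod (2 * n) → ℤ × ℤ | IsLoop (2 * n) f})
    (fun f hf => hf.1) (loops_finite hn)
  exact_mod_cast h1

theorem pr_union {n : ℕ} (hn : 1 ≤ n) (S T : Set ℝ) : pr n (S ∪ T) ≤ pr n S + pr n T := by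
  unfold pr
  rw [← add_div]
  apply div_le_div_of_nonneg_right _ (Nat.cast_nonneg _)
  have h := Set.ncard_union_le
    {f : ZMod (2 * n) → ℤ × ℤ | IsLoop (2 * n) f ∧ (area (2 * n) f : ℝ) ∈ S}
    {f : ZMod (2 * n) → ℤ × ℤ | IsLoop (2 * n) f ∧ (area (2 * n) f : ℝ) ∈ T}
  have h2 := Set.ncard_le_ncard (s := {f : ZMod (2 * n) → ℤ × ℤ | IsLoop (2 * n) f ∧
      (area (2 * n) f : ℝ) ∈ S ∪ T})
    (t := {f : ZMod (2 * n) → ℤ × ℤ | IsLoop (2 * n) f ∧ (area (2 * n) f : ℝ) ∈ S} ∪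
      {f : ZMod (2 * n) → ℤ × ℤ | IsLoop (2 * n) f ∧ (area (2 * n) f : ℝ) ∈ T})
    (by
      rintro f ⟨h1, h2 | h2⟩
      · exact Or.inl ⟨h1, h2⟩
      · exact Or.inr ⟨h1, h2⟩) ((fin_S hn S).union (fin_S hn T))
  exact_mod_cast h2.trans h

/-- the estimates of the tail in exponential form -/
theorem ev_par {u : ℝ} (hu : 0 < u) (hu4 : u < 1 / 4) {ε : ℝ} (hε : 0 < ε) :
    ∀ᶠ n : ℕ in atTop, Real.exp (-((RR u + ε) * n)) ≤ par n (u * (n : ℝ) ^ 2) ∧
      par n (u * (n : ℝ) ^ 2) ≤ Real.exp (-((RR u - ε) * n)) := by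
  have ht := tendsto_par hu hu4
  filter_upwards [ht.eventually_const_lt (show -RR u - ε < -RR u by linarith),
    ht.eventually_lt_const (show -RR u < -RR u + ε by linarith),
    PG.lower hu hu4 hε, eventually_gt_atTop 0] with n h1 h2 h3 h4
  have hn : (0 : ℝ) < n := by exact_mod_cast h4
  rw [lt_div_iff₀ hn] at h1
  rw [div_lt_iff₀ hn] at h2
  constructor
  · rw [← Real.le_log_iff_exp_le h3.1]
    linarith
  · rw [← Real.log_le_iff_le_exp h3.1]
    linarith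

theorem interval_low {a b : ℝ} (ha : 0 ≤ a) (ha4 : a < 1 / 4) (hab : a < b) {S : ℕ → Set ℝ}
    (hS1 : ∀ n : ℕ, Ioo (a * (n : ℝ) ^ 2) (b * (n : ℝ) ^ 2) ⊆ S n) {ε : ℝ} (hε : 0 < ε) :
    ∀ᶠ n : ℕ in atTop, Real.exp (-((RR a + ε) * n)) ≤ pr n (S n) := by
  have hc : ContinuousWithinAt RR (Icc 0 (1 / 4)) a := RR_cont a ⟨ha, ha4.le⟩
  -- the point `a'`
  obtain ⟨a', h1, h2, h3, h4⟩ : ∃ a', a < a' ∧ a' < b ∧ a' < 1 / 4 ∧ RR a' < RR a + ε / 4 := by
    have h5 : Tendsto RR (𝓝[>] a) (𝓝 (RR a)) := by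
      refine hc.mono_left ?_
      rw [← nhdsWithin_Ioc_eq_nhdsGT ha4]
      exact nhdsWithin_mono _ fun x hx => ⟨ha.trans hx.1.le, hx.2⟩
    have h6 := h5.eventually_lt_const (show RR a < RR a + ε / 4 by linarith)
    have h7 : ∀ᶠ x in 𝓝[>] a, x ∈ Ioo a (min b (1 / 4)) :=
      Ioo_mem_nhdsGT (lt_min hab ha4)
    obtain ⟨x, hx1, hx2⟩ := (h6.and h7).exists
    exact ⟨x, hx2.1, hx2.2.trans_le (min_le_left _ _), hx2.2.trans_le (min_le_right _ _), hx1⟩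
  obtain ⟨b', hb1, hb2, hb3⟩ : ∃ b', a' < b' ∧ b' < b ∧ b' < 1 / 4 := by
    obtain ⟨x, hx1, hx2⟩ := exists_between (lt_min h2 h3)
    exact ⟨x, hx1, hx2.trans_le (min_le_left _ _), hx2.trans_le (min_le_right _ _)⟩
  have ha'0 : 0 < a' := ha.trans_lt h1
  have hgap : RR a' < RR b' :=
    RR_strict ⟨ha'0.le, h3.le⟩ ⟨(ha'0.trans hb1).le, hb3.le⟩ hb1
  obtain ⟨η, hη⟩ : ∃ η, η = min (ε / 4) ((RR b' - RR a') / 4) := ⟨_, rfl⟩
  have hη0 : 0 < η := by rw [hη]; exact lt_min (by linarith) (by linarith)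
  have hη1 : η ≤ ε / 4 := by rw [hη]; exact min_le_left _ _
  have hη2 : η ≤ (RR b' - RR a') / 4 := by rw [hη]; exact min_le_right _ _
  have hlog2 : 0 < Real.log 2 := Real.log_pos (by norm_num)
  filter_upwards [ev_par ha'0 h3 hη0, ev_par (ha'0.trans hb1) hb3 hη0,
    eventually_ge_atTop 1,
    tendsto_natCast_atTop_atTop.eventually_gt_atTop (Real.log 2 / (2 * η)),
    tendsto_natCast_atTop_atTop.eventually_gt_atTop (Real.log 2 / (ε / 4))] with n g2 g3 g4 g5 g6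
  have hn : (0 : ℝ) < n := by exact_mod_cast g4
  rw [div_lt_iff₀ (by linarith)] at g5
  rw [div_lt_iff₀ (by linarith)] at g6
  have hsplit : par n (a' * (n : ℝ) ^ 2) ≤ pr n (S n) + par n (b' * (n : ℝ) ^ 2) := by
    rw [← pr_Ici, ← pr_Ici]
    refine (pr_mono g4 ?_).trans (pr_union g4 _ _)
    intro x hx
    have hx' : a' * (n : ℝ) ^ 2 ≤ x := hx
    rcases lt_or_ge x (b' * (n : ℝ) ^ 2) with h | h
    · left
      apply hS1 n
      have hn2 : (0 : ℝ) < (n : ℝ) ^ 2 := by positivity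
      exact ⟨lt_of_lt_of_le (mul_lt_mul_of_pos_right h1 hn2) hx',
        h.trans (mul_lt_mul_of_pos_right hb2 hn2)⟩
    · right
      exact h
  have hcmp : Real.exp (-((RR b' - η) * n)) ≤ Real.exp (-((RR a' + η) * n)) / 2 := by
    rw [le_div_iff₀ (by norm_num), show (2 : ℝ) = Real.exp (Real.log 2) by
      rw [Real.exp_log (by norm_num)], ← Real.exp_add]
    apply Real.exp_le_exp.2
    have : 2 * η ≤ RR b' - RR a' - 2 * η := by linarith
    nlinarith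
  have hlow : Real.exp (-((RR a' + η) * n) - Real.log 2) ≤ pr n (S n) := by
    rw [Real.exp_sub, Real.exp_log (by norm_num)]
    linarith [g2.1, g3.2]
  refine le_trans (Real.exp_le_exp.2 ?_) hlow
  nlinarith

/-- **the large deviation principle** -/
theorem interval {a b : ℝ} (ha : 0 ≤ a) (ha4 : a < 1 / 4) (hab : a < b) {S : ℕ → Set ℝ}
    (hS1 : ∀ n : ℕ, Ioo (a * (n : ℝ) ^ 2) (b * (n : ℝ) ^ 2) ⊆ S n)
    (hS2 : ∀ n : ℕ, S n ⊆ Ici (a * (n : ℝ) ^ 2)) :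
    Tendsto (fun n : ℕ => Real.log (pr n (S n)) / n) atTop (𝓝 (-RR a)) := by
  rw [Metric.tendsto_nhds]
  intro ε hε
  have hup : ∀ᶠ n : ℕ in atTop, pr n (S n) ≤ Real.exp (-((RR a - ε / 2) * n)) := by
    rcases ha.eq_or_lt with h0 | h0
    · filter_upwards [eventually_ge_atTop 1] with n hn
      refine (pr_le_one hn _).trans ?_
      have h00 : RR a = 0 := by rw [← h0, RR_zero]
      rw [h00]
      apply Real.one_le_exp
      have : (0 : ℝ) ≤ n := Nat.cast_nonneg _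
      nlinarith
    · filter_upwards [ev_par h0 ha4 (show 0 < ε / 2 by linarith), eventually_ge_atTop 1]
        with n hn hn1
      refine (pr_mono hn1 (hS2 n)).trans ?_
      rw [pr_Ici]
      exact hn.2
  filter_upwards [hup, interval_low ha ha4 hab hS1 (show 0 < ε / 2 by linarith),
    eventually_ge_atTop 1] with n g1 g2 g4
  have hn : (0 : ℝ) < n := by exact_mod_cast g4
  have hpos : 0 < pr n (S n) := (Real.exp_pos _).trans_le g2
  rw [Real.dist_eq, abs_lt]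
  constructor
  · have h5 := Real.log_le_log (Real.exp_pos _) g2
    rw [Real.log_exp] at h5
    have h6 : -(RR a + ε) < Real.log (pr n (S n)) / n := by
      rw [lt_div_iff₀ hn]
      nlinarith
    linarith
  · have h5 := Real.log_le_log hpos g1
    rw [Real.log_exp] at h5
    have h6 : Real.log (pr n (S n)) / n < -(RR a - ε) := by
      rw [div_lt_iff₀ hn]
      nlinarith
    linarith

end Pool.Agent.H26.WF
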