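import Pool.Graph.R_pool_sql_team_seeded_47a924f7.T6.H44.AR.Defs3
import Pool.Graph.R_pool_sql_team_seeded_1e53cb71.Helper14K9.Iso.BM

/-!
Adding a segment to a planar convex body; the area of a zonogon; Minkowski's inequality for a
compact set and a zonogon.
-/

set_option autoImplicit false

open MeasureTheory Set
open scoped ENNReal Pointwise

namespace Pool.Agent.H26.AR

open Pool.Agent.T6.H44.AR (det Zn)

/-- the segment `[-z, z]` -/
def seg (z : ℝ × ℝ) : Set (ℝ × ℝ) := (fun t : ℝ => t • z) '' Icc (-1) 1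

theorem seg_compact (z : ℝ × ℝ) : IsCompact (seg z) :=
  isCompact_Icc.image (by fun_prop)

theorem seg_convex (z : ℝ × ℝ) : Convex ℝ (seg z) := by
  have : seg z = (LinearMap.toSpanSingleton ℝ (ℝ × ℝ) z) '' Icc (-1) 1 := rfl
  rw [this]
  exact (convex_Icc _ _).linear_image _

theorem seg_nonempty (z : ℝ × ℝ) : (seg z).Nonempty := ⟨0, 0, by norm_num, by simp⟩

theorem fib_e1 {Q : Set (ℝ × ℝ)} (hc : IsCompact Q) (hv : Convex ℝ Q) :
    volume (Q + seg (1, 0)) = volume Q + 2 * volume (Prod.snd '' Q) := by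
  have hcs : IsCompact (Q + seg (1, 0)) := hc.add (seg_compact _)
  have hmP : MeasurableSet (Prod.snd '' Q) := (hc.image continuous_snd).measurableSet
  rw [Measure.volume_eq_prod, Measure.prod_apply_symm hcs.measurableSet,
    Measure.prod_apply_symm hc.measurableSet]
  have key : ∀ t : ℝ, volume ((fun s : ℝ => (s, t)) ⁻¹' (Q + seg (1, 0))) =
      volume ((fun s : ℝ => (s, t)) ⁻¹' Q) + (Prod.snd '' Q).indicator (fun _ => 2) t := by
    intro t
    have hF : IsCompact ((fun s : ℝ => (s, t)) ⁻¹' Q) := by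
      have hemb : Topology.IsClosedEmbedding (fun s : ℝ => (s, t)) := by
        refine Topology.IsClosedEmbedding.of_continuous_injective_isClosedMap (by fun_prop) ?_ ?_
        · intro a b hab
          exact (Prod.mk.inj hab).1
        · intro C hC
          have : (fun s : ℝ => (s, t)) '' C = C ×ˢ {t} := by
            ext ⟨a, b⟩
            simp only [mem_image, Prod.mk.injEq, mem_prod, mem_singleton_iff]
            constructor
            · rintro ⟨x, hx, rfl, rfl⟩
              exact ⟨hx, rfl⟩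
            · rintro ⟨h1, rfl⟩
              exact ⟨a, h1, rfl, rfl⟩
          rw [this]
          exact hC.prod isClosed_singleton
      exact hemb.isCompact_preimage hc
    have hFv : Convex ℝ ((fun s : ℝ => (s, t)) ⁻¹' Q) := by
      intro a ha b hb p q hp hq hpq
      have := hv ha hb hp hq hpq
      simp only [mem_preimage] at this ⊢
      convert this using 1
      simp only [Prod.smul_mk, Prod.mk_add_mk, smul_eq_mul, Prod.mk.injEq, true_and]
      rw [← add_mul, hpq, one_mul]
    have hsum : (fun s : ℝ => (s, t)) ⁻¹' (Q + seg (1, 0)) =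
        (fun s : ℝ => (s, t)) ⁻¹' Q + Icc (-1) 1 := by
      ext s
      simp only [mem_preimage, mem_add, seg, mem_image]
      constructor
      · rintro ⟨⟨a, b⟩, hab, _, ⟨r, hr, rfl⟩, h⟩
        simp only [Prod.smul_mk, smul_eq_mul, mul_one, mul_zero, Prod.mk_add_mk,
          Prod.mk.injEq, add_zero] at h
        obtain ⟨h1, rfl⟩ := h
        exact ⟨a, hab, r, hr, h1⟩
      · rintro ⟨a, ha, r, hr, h⟩
        refine ⟨(a, t), ha, r • (1, 0), ⟨r, hr, rfl⟩, ?_⟩
        simp only [Prod.smul_mk, smul_eq_mul, mul_one, mul_zero, Prod.mk_add_mk, add_zero, h]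
    rw [hsum]
    rcases ((fun s : ℝ => (s, t)) ⁻¹' Q).eq_empty_or_nonempty with he | hne
    · rw [he, empty_add, measure_empty, zero_add, indicator_of_notMem]
      rintro ⟨⟨a, b⟩, hab, rfl⟩
      have : a ∈ ((fun s : ℝ => (s, b)) ⁻¹' Q) := hab
      simp only at he
      rw [he] at this
      exact this
    · have hIcc := eq_Icc_of_connected_compact ⟨hne, hFv.isPreconnected⟩ hF
      obtain ⟨a, ha⟩ := hne
      have hmem : t ∈ Prod.snd '' Q := ⟨(a, t), ha, rfl⟩
      rw [indicator_of_mem hmem]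
      obtain ⟨x, hx⟩ : ∃ x, x = sInf ((fun s : ℝ => (s, t)) ⁻¹' Q) := ⟨_, rfl⟩
      obtain ⟨y, hy⟩ : ∃ y, y = sSup ((fun s : ℝ => (s, t)) ⁻¹' Q) := ⟨_, rfl⟩
      rw [← hx, ← hy] at hIcc
      rw [hIcc] at ha ⊢
      have hxy : x ≤ y := ha.1.trans ha.2
      rw [Icc_add_Icc hxy (by norm_num), Real.volume_Icc, Real.volume_Icc]
      have e : y + 1 - (x + -1) = (y - x) + 2 := by ring
      rw [e, ENNReal.ofReal_add (by linarith) (by norm_num)]
      norm_num
  simp only [key]
  rw [lintegral_add_left, lintegral_indicator hmP, setLIntegral_const]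
  · exact measurable_measure_prodMk_right hc.measurableSet

/-- the linear map with the columns `z` and `w` -/
noncomputable def TL (z w : ℝ × ℝ) : ℝ × ℝ →ₗ[ℝ] ℝ × ℝ where
  toFun x := (x.1 * z.1 + x.2 * w.1, x.1 * z.2 + x.2 * w.2)
  map_add' x y := by ext <;> simp <;> ring
  map_smul' c x := by ext <;> simp <;> ring

theorem det_TL (z w : ℝ × ℝ) : LinearMap.det (TL z w) = det z w := by
  rw [← LinearMap.det_toMatrix (Module.Basis.finTwoProd ℝ), Matrix.det_fin_two]
  simp [LinearMap.toMatrix_apply, TL, det]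
  ring

theorem det_TL_apply (z w x : ℝ × ℝ) : det z (TL z w x) = det z w * x.2 := by
  simp only [det, TL, LinearMap.coe_mk, AddHom.coe_mk]
  ring

/-- **adding a segment** -/
theorem fib (z : ℝ × ℝ) {P : Set (ℝ × ℝ)} (hc : IsCompact P) (hv : Convex ℝ P) :
    volume (P + seg z) = volume P + 2 * volume (det z '' P) := by
  rcases eq_or_ne z 0 with rfl | hz
  · have h1 : seg 0 = {0} := by
      ext x
      constructor
      · rintro ⟨t, _, rfl⟩
        simp
      · rintro rfl
        exact ⟨0, by norm_num, by simp⟩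
    have h2 : det (0 : ℝ × ℝ) '' P ⊆ {0} := by
      rintro _ ⟨x, _, rfl⟩
      simp [det]
    have h3 : volume (det (0 : ℝ × ℝ) '' P) = 0 := measure_mono_null h2 (by simp)
    rw [h1, h3, add_singleton]
    simp
  · have hn : 0 < z.1 ^ 2 + z.2 ^ 2 := by
      by_contra hcon
      have h1 : z.1 = 0 := by nlinarith [sq_nonneg z.1, sq_nonneg z.2]
      have h2 : z.2 = 0 := by nlinarith [sq_nonneg z.1, sq_nonneg z.2]
      exact hz (Prod.ext h1 h2)
    obtain ⟨w, hw⟩ : ∃ w : ℝ × ℝ, det z w = 1 := by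
      refine ⟨(-z.2 / (z.1 ^ 2 + z.2 ^ 2), z.1 / (z.1 ^ 2 + z.2 ^ 2)), ?_⟩
      simp only [det]
      field_simp
      ring
    have hdet : LinearMap.det (TL z w) = 1 := by rw [det_TL, hw]
    have hT : ∀ x, det z (TL z w x) = x.2 := by
      intro x
      rw [det_TL_apply, hw, one_mul]
    obtain ⟨e, he⟩ : ∃ e : (ℝ × ℝ) ≃ₗ[ℝ] (ℝ × ℝ), (e : ℝ × ℝ →ₗ[ℝ] ℝ × ℝ) = TL z w :=
      ⟨LinearEquiv.ofIsUnitDet (f := TL z w) (v := Module.Basis.finTwoProd ℝ)
        (v' := Module.Basis.finTwoProd ℝ) (by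
          rw [LinearMap.det_toMatrix, hdet]
          exact isUnit_one), by ext <;> rfl⟩
    have he' : ∀ x, e x = TL z w x := fun x => by rw [← he]; rfl
    have hcont : Continuous (e.symm : ℝ × ℝ → ℝ × ℝ) :=
      LinearMap.continuous_of_finiteDimensional (e.symm : ℝ × ℝ →ₗ[ℝ] ℝ × ℝ)
    obtain ⟨Q, hQ⟩ : ∃ Q, Q = e.symm '' P := ⟨_, rfl⟩
    have hQc : IsCompact Q := by rw [hQ]; exact hc.image hcont
    have hQv : Convex ℝ Q := by
      rw [hQ]
      exact hv.linear_image (e.symm : ℝ × ℝ →ₗ[ℝ] ℝ × ℝ)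
    have hP : P = TL z w '' Q := by
      rw [hQ, image_image]
      have : (fun x => TL z w (e.symm x)) = id := by
        funext x
        rw [← he', e.apply_symm_apply]
        rfl
      rw [this, image_id]
    have hseg : seg z = TL z w '' seg (1, 0) := by
      unfold seg
      rw [image_image]
      congr 1
      funext t
      simp [TL, Prod.ext_iff]
    have hvol : ∀ A : Set (ℝ × ℝ), volume (TL z w '' A) = volume A := by
      intro A
      rw [Measure.addHaar_image_linearMap, hdet]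
      simp
    have himg : det z '' P = Prod.snd '' Q := by
      rw [hP, image_image]
      simp only [hT]
    rw [himg, hP, hseg, ← image_add, hvol, hvol]
    exact fib_e1 hQc hQv

/-! ### zonogons -/

theorem Zn_zero (z : Fin 0 → ℝ × ℝ) : Zn z = {0} := by
  ext x
  constructor
  · rintro ⟨t, _, rfl⟩
    simp
  · rintro rfl
    exact ⟨fun _ => 0, fun j => j.elim0, by simp⟩

theorem Zn_succ {N : ℕ} (z : Fin (N + 1) → ℝ × ℝ) :
    Zn z = Zn (fun i => z (Fin.castSucc i)) + seg (z (Fin.last N)) := by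
  ext x
  rw [mem_add]
  constructor
  · rintro ⟨t, ht, rfl⟩
    refine ⟨_, ⟨fun i => t (Fin.castSucc i), fun i => ht _, rfl⟩, t (Fin.last N) • z (Fin.last N),
      ⟨_, abs_le.1 (ht _), rfl⟩, ?_⟩
    rw [Fin.sum_univ_castSucc]
  · rintro ⟨_, ⟨t, ht, rfl⟩, _, ⟨r, hr, rfl⟩, rfl⟩
    refine ⟨Fin.snoc t r, ?_, ?_⟩
    · intro j
      refine Fin.lastCases ?_ (fun i => ?_) j
      · rw [Fin.snoc_last]
        exact abs_le.2 hr
      · rw [Fin.snoc_castSucc]
        exact ht i
    · rw [Fin.sum_univ_castSucc]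
      simp

theorem Zn_compact : ∀ {N : ℕ} (z : Fin N → ℝ × ℝ), IsCompact (Zn z)
  | 0, z => by rw [Zn_zero]; exact isCompact_singleton
  | N + 1, z => by
    rw [Zn_succ]
    exact (Zn_compact _).add (seg_compact _)

theorem Zn_convex : ∀ {N : ℕ} (z : Fin N → ℝ × ℝ), Convex ℝ (Zn z)
  | 0, z => by rw [Zn_zero]; exact convex_singleton _
  | N + 1, z => by
    rw [Zn_succ]
    exact (Zn_convex _).add (seg_convex _)

theorem det_sum_right {N : ℕ} (v : ℝ × ℝ) (t : Fin N → ℝ) (z : Fin N → ℝ × ℝ) :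
    det v (∑ j, t j • z j) = ∑ j, t j * det v (z j) := by
  simp only [det, Prod.fst_sum, Prod.snd_sum, Prod.smul_fst, Prod.smul_snd, smul_eq_mul]
  rw [Finset.mul_sum, Finset.mul_sum, ← Finset.sum_sub_distrib]
  apply Finset.sum_congr rfl
  intro j _
  ring

/-- range of `det v` on a zonogon -/
theorem det_Zn {N : ℕ} (v : ℝ × ℝ) (z : Fin N → ℝ × ℝ) :
    det v '' Zn z = Icc (-(∑ j, |det v (z j)|)) (∑ j, |det v (z j)|) := by
  ext r
  constructor
  · rintro ⟨_, ⟨t, ht, rfl⟩, rfl⟩
    rw [det_sum_right, mem_Icc, ← abs_le]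
    refine (Finset.abs_sum_le_sum_abs _ _).trans (Finset.sum_le_sum fun j _ => ?_)
    rw [abs_mul]
    exact mul_le_of_le_one_left (abs_nonneg _) (ht j)
  · intro hr
    rw [mem_Icc] at hr
    obtain ⟨W, hW⟩ : ∃ W, W = ∑ j, |det v (z j)| := ⟨_, rfl⟩
    rw [← hW] at hr
    rcases eq_or_ne W 0 with h0 | h0
    · refine ⟨0, ⟨fun _ => 0, by simp, by simp⟩, ?_⟩
      rw [h0] at hr
      simp only [det, Prod.fst_zero, Prod.snd_zero, mul_zero, sub_zero]
      linarith [hr.1, hr.2]
    · have hWpos : 0 < W := lt_of_le_of_ne (by rw [hW]; positivity) (Ne.symm h0)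
      refine ⟨_, ⟨fun j => (r / W) * SignType.sign (det v (z j)), ?_, rfl⟩, ?_⟩
      · intro j
        rw [abs_mul]
        have h1 : |r / W| ≤ 1 := by
          rw [abs_div, abs_of_pos hWpos, div_le_one hWpos]
          exact abs_le.2 hr
        have h2 : |((SignType.sign (det v (z j)) : SignType) : ℝ)| ≤ 1 := by
          rcases lt_trichotomy (det v (z j)) 0 with h | h | h
          · rw [sign_neg h]; simp
          · rw [h]; simp
          · rw [sign_pos h]; simp
        exact mul_le_one₀ h1 (abs_nonneg _) h2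
      · rw [det_sum_right]
        have h3 : ∀ j, r / W * ((SignType.sign (det v (z j)) : SignType) : ℝ) * det v (z j) =
            r / W * |det v (z j)| := by
          intro j
          rw [mul_assoc, sign_mul_self]
        simp only [h3]
        rw [← Finset.mul_sum, ← hW, div_mul_cancel₀ _ h0]

/-- the sum of the determinants -/
noncomputable def DS {N : ℕ} (z : Fin N → ℝ × ℝ) : ℝ := ∑ i, ∑ j, |det (z i) (z j)|

theorem det_self (v : ℝ × ℝ) : det v v = 0 := by simp only [det]; ring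

theorem det_comm_abs (v w : ℝ × ℝ) : |det v w| = |det w v| := by
  rw [← abs_neg]
  congr 1
  simp only [det]
  ring

theorem DS_succ {N : ℕ} (z : Fin (N + 1) → ℝ × ℝ) :
    DS z = DS (fun i => z (Fin.castSucc i)) +
      2 * ∑ j, |det (z (Fin.last N)) (z (Fin.castSucc j))| := by
  unfold DS
  rw [Fin.sum_univ_castSucc]
  simp only [Fin.sum_univ_castSucc (fun j => |det _ (z j)|)]
  rw [Finset.sum_add_distrib, det_self, abs_zero, add_zero]
  simp only [det_comm_abs _ (z (Fin.last N))]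
  ring

theorem DS_nonneg {N : ℕ} (z : Fin N → ℝ × ℝ) : 0 ≤ DS z := by unfold DS; positivity

/-- the area of a zonogon -/
theorem vol_Zn : ∀ {N : ℕ} (z : Fin N → ℝ × ℝ), volume (Zn z) = ENNReal.ofReal (2 * DS z)
  | 0, z => by
    rw [Zn_zero]
    simp [DS]
  | N + 1, z => by
    rw [Zn_succ, fib _ (Zn_compact _) (Zn_convex _), vol_Zn, det_Zn, Real.volume_Icc, DS_succ,
      mul_add, ENNReal.ofReal_add (by have := DS_nonneg (fun i => z (Fin.castSucc i)); positivity)
        (by positivity)]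
    congr 1
    rw [show (2 : ℝ≥0∞) = ENNReal.ofReal 2 by simp, ← ENNReal.ofReal_mul (by norm_num)]
    congr 1
    ring

theorem vz : Pool.Agent.T6.H44.AR.StmtVZ := by
  intro N z
  have h : volume.real (Zn z) = 2 * DS z := by
    unfold Measure.real
    rw [vol_Zn, ENNReal.toReal_ofReal]
    have := DS_nonneg z
    positivity
  rw [h]
  exact ⟨le_rfl, fun _ => le_rfl⟩

/-- adding a zonogon to a body inside slabs -/
theorem add_Zn_le {P : Set (ℝ × ℝ)} (hc : IsCompact P) (hv : Convex ℝ P) :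
    ∀ {N : ℕ} (z : Fin N → ℝ × ℝ) (l : Fin N → ℝ), (∀ j, 0 ≤ l j) →
    (∀ j, ∀ x ∈ P, |det (z j) x| ≤ l j) →
    volume (P + Zn z) ≤ volume P + ENNReal.ofReal (4 * (∑ j, l j) + 2 * DS z)
  | 0, z, l, _, _ => by
    rw [Zn_zero, add_singleton]
    simp
  | N + 1, z, l, h0, hl => by
    rw [Zn_succ, ← add_assoc, fib _ (hc.add (Zn_compact _)) (hv.add (Zn_convex _))]
    have ih := add_Zn_le hc hv (fun i => z (Fin.castSucc i)) (fun i => l (Fin.castSucc i))
      (fun i => h0 _) (fun i => hl _)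
    obtain ⟨W, hW⟩ : ∃ W, W = ∑ j, |det (z (Fin.last N)) (z (Fin.castSucc j))| := ⟨_, rfl⟩
    have hW0 : 0 ≤ W := by rw [hW]; positivity
    have hsub : det (z (Fin.last N)) '' (P + Zn (fun i => z (Fin.castSucc i))) ⊆
        Icc (-(l (Fin.last N) + W)) (l (Fin.last N) + W) := by
      rintro _ ⟨_, ⟨x, hx, y, hy, rfl⟩, rfl⟩
      have h1 := hl (Fin.last N) x hx
      have h2 : det (z (Fin.last N)) y ∈ Icc (-W) W := by
        rw [hW, ← det_Zn]
        exact ⟨y, hy, rfl⟩
      have h3 : det (z (Fin.last N)) (x + y) =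
          det (z (Fin.last N)) x + det (z (Fin.last N)) y := by
        simp only [det, Prod.fst_add, Prod.snd_add]
        ring
      simp only
      rw [h3]
      have h4 := abs_le.1 h1
      exact ⟨by linarith [h2.1, h4.1], by linarith [h2.2, h4.2]⟩
    have h5 : volume (det (z (Fin.last N)) '' (P + Zn (fun i => z (Fin.castSucc i)))) ≤
        ENNReal.ofReal (2 * (l (Fin.last N) + W)) := by
      refine (measure_mono hsub).trans (le_of_eq ?_)
      rw [Real.volume_Icc]
      congr 1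
      ring
    refine (add_le_add ih (mul_le_mul_right h5 2)).trans (le_of_eq ?_)
    rw [show (2 : ℝ≥0∞) = ENNReal.ofReal 2 by simp, ← ENNReal.ofReal_mul (by norm_num), add_assoc,
      ← ENNReal.ofReal_add]
    · congr 2
      rw [DS_succ, Fin.sum_univ_castSucc, ← hW]
      ring
    · have := DS_nonneg (fun i => z (Fin.castSucc i))
      have h6 : 0 ≤ ∑ i : Fin N, l (Fin.castSucc i) := Finset.sum_nonneg fun i _ => h0 _
      positivity
    · have := h0 (Fin.last N)
      positivity

/-- the intersection of the slabs -/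
def Sl {N : ℕ} (z : Fin N → ℝ × ℝ) (l : Fin N → ℝ) : Set (ℝ × ℝ) := {x | ∀ j, |det (z j) x| ≤ l j}

theorem det_cont (v : ℝ × ℝ) : Continuous (det v) := by
  unfold det
  fun_prop

theorem Sl_closed {N : ℕ} (z : Fin N → ℝ × ℝ) (l : Fin N → ℝ) : IsClosed (Sl z l) := by
  have : Sl z l = ⋂ j, {x | |det (z j) x| ≤ l j} := by
    ext x
    simp [Sl]
  rw [this]
  exact isClosed_iInter fun j => isClosed_le (det_cont _).abs continuous_const

theorem det_add (v x y : ℝ × ℝ) : det v (x + y) = det v x + det v y := by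
  simp only [det, Prod.fst_add, Prod.snd_add]
  ring

theorem det_smul (v x : ℝ × ℝ) (a : ℝ) : det v (a • x) = a * det v x := by
  simp only [det, Prod.smul_fst, Prod.smul_snd, smul_eq_mul]
  ring

theorem Sl_convex {N : ℕ} (z : Fin N → ℝ × ℝ) (l : Fin N → ℝ) : Convex ℝ (Sl z l) := by
  intro x hx y hy a b ha hb hab j
  rw [det_add, det_smul, det_smul]
  have h1 := hx j
  have h2 := hy j
  calc |a * det (z j) x + b * det (z j) y| ≤ |a * det (z j) x| + |b * det (z j) y| := abs_add_le _ _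
    _ = a * |det (z j) x| + b * |det (z j) y| := by
      rw [abs_mul, abs_mul, abs_of_nonneg ha, abs_of_nonneg hb]
    _ ≤ a * l j + b * l j := by gcongr
    _ = l j := by rw [← add_mul, hab, one_mul]

theorem Sl_bounded {N : ℕ} (z : Fin N → ℝ × ℝ) (l : Fin N → ℝ) {i j : Fin N}
    (hij : det (z i) (z j) ≠ 0) : Bornology.IsBounded (Sl z l) := by
  obtain ⟨d, hd⟩ : ∃ d, d = det (z i) (z j) := ⟨_, rfl⟩
  rw [← hd] at hij
  rw [isBounded_iff_forall_norm_le]
  refine ⟨((|(z j).1| + |(z j).2|) * l i + (|(z i).1| + |(z i).2|) * l j) / |d|, ?_⟩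
  intro x hx
  have h1 := hx i
  have h2 := hx j
  have e1 : d * x.1 = (z j).1 * det (z i) x - (z i).1 * det (z j) x := by
    rw [hd]
    simp only [det]
    ring
  have e2 : d * x.2 = (z j).2 * det (z i) x - (z i).2 * det (z j) x := by
    rw [hd]
    simp only [det]
    ring
  have hd0 : 0 < |d| := abs_pos.2 hij
  have hli : 0 ≤ l i := (abs_nonneg _).trans h1
  have hlj : 0 ≤ l j := (abs_nonneg _).trans h2
  have hb : ∀ a b : ℝ, |a| ≤ |(z j).1| + |(z j).2| → |b| ≤ |(z i).1| + |(z i).2| → ∀ y : ℝ,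
      d * y = a * det (z i) x - b * det (z j) x →
      |y| ≤ ((|(z j).1| + |(z j).2|) * l i + (|(z i).1| + |(z i).2|) * l j) / |d| := by
    intro a b ha hb y hy
    rw [le_div_iff₀ hd0, mul_comm, ← abs_mul, hy]
    refine (abs_sub _ _).trans ?_
    rw [abs_mul, abs_mul]
    exact add_le_add (mul_le_mul ha h1 (abs_nonneg _) (by positivity))
      (mul_le_mul hb h2 (abs_nonneg _) (by positivity))
  rw [Prod.norm_def, Real.norm_eq_abs, Real.norm_eq_abs]
  apply max_le
  · exact hb _ _ (le_add_of_nonneg_right (abs_nonneg _)) (le_add_of_nonneg_right (abs_nonneg _))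
      _ e1
  · exact hb _ _ (le_add_of_nonneg_left (abs_nonneg _)) (le_add_of_nonneg_left (abs_nonneg _))
      _ e2

theorem wz : Pool.Agent.T6.H44.AR.StmtWZ := by
  intro N z K l hK hl hKl
  have hsum : 0 ≤ ∑ j, l j := Finset.sum_nonneg fun j _ => hl j
  change √(volume.real K * (DS z / 2)) ≤ ∑ j, l j
  rcases eq_or_ne (DS z) 0 with hD | hD
  · rw [hD]
    simpa using hsum
  have hDpos : 0 < DS z := lt_of_le_of_ne (DS_nonneg z) (Ne.symm hD)
  obtain ⟨i, j, hij⟩ : ∃ i j, det (z i) (z j) ≠ 0 := by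
    by_contra hcon
    push Not at hcon
    apply hD
    unfold DS
    simp [hcon]
  have hPc : IsCompact (Sl z l) := Metric.isCompact_of_isClosed_isBounded (Sl_closed z l)
    (Sl_bounded z l hij)
  have hKP : K ⊆ Sl z l := fun x hx j => hKl j x hx
  have hPne : (Sl z l).Nonempty := ⟨0, fun j => by simpa [det] using hl j⟩
  have hZne : (Zn z).Nonempty := ⟨0, fun _ => 0, by simp, by simp⟩
  obtain ⟨p, hp⟩ : ∃ p, p = volume.real (Sl z l) := ⟨_, rfl⟩
  have hp0 : 0 ≤ p := by rw [hp]; exact measureReal_nonneg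
  have hvp : volume (Sl z l) = ENNReal.ofReal p := by
    rw [hp]
    unfold Measure.real
    rw [ENNReal.ofReal_toReal hPc.measure_lt_top.ne]
  have hfr : Module.finrank ℝ (ℝ × ℝ) = 2 := by simp
  have hbm := Pool.Agent.Helper14K9.Iso.bm_pow (volume : Measure (ℝ × ℝ)) hPc (Zn_compact z)
    hPne hZne (Real.sqrt_nonneg p) (Real.sqrt_nonneg (2 * DS z))
    (by rw [hfr, Real.sq_sqrt hp0, hvp]) (by rw [hfr, Real.sq_sqrt (by positivity), vol_Zn])
  rw [hfr] at hbm
  have hup := add_Zn_le hPc (Sl_convex z l) z l hl (fun j x hx => hx j)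
  rw [hvp, ← ENNReal.ofReal_add hp0 (by positivity)] at hup
  have h := hbm.trans hup
  rw [ENNReal.ofReal_le_ofReal_iff (by positivity), add_sq, Real.sq_sqrt hp0,
    Real.sq_sqrt (by positivity)] at h
  have h2 : √p * √(2 * DS z) ≤ 2 * ∑ j, l j := by linarith
  rw [← Real.sqrt_mul hp0] at h2
  have h3 : volume.real K ≤ p := by
    rw [hp]
    exact measureReal_mono hKP hPc.measure_lt_top.ne
  have h4 : √(volume.real K * (DS z / 2)) ≤ √(p * (2 * DS z) / 2 ^ 2) := by
    apply Real.sqrt_le_sqrt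
    have := mul_le_mul_of_nonneg_right h3 (show 0 ≤ DS z / 2 by positivity)
    linarith
  have h5 : √(p * (2 * DS z) / 2 ^ 2) = √(p * (2 * DS z)) / 2 := by
    rw [Real.sqrt_div (by positivity), Real.sqrt_sq (by norm_num)]
  linarith

end Pool.Agent.H26.AR
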