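import Pool.Agent.H26.AR.Ldp

/-!
The free energy of the polygons under pressure.
-/

set_option autoImplicit false

open MeasureTheory Set Filter Topology
open scoped Pointwise ENNReal

namespace Pool.Agent.H26.WF

open Pool.Agent.T6.H44
open Pool.Agent.Y981.L2 (Lam Rate par ln area loops_finite)
open H981 (IsLoop)
open H981 (mu)

/-- the exponential moment of the area -/
noncomputable def mgf (n : ℕ) (s : ℝ) : ℝ :=
  (∑ᶠ f ∈ {f : ZMod (2 * n) → ℤ × ℤ | IsLoop (2 * n) f}, Real.exp (s * area (2 * n) f / n)) /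
    ({f : ZMod (2 * n) → ℤ × ℤ | IsLoop (2 * n) f}.ncard : ℝ)

theorem mgf_lower {n : ℕ} (hn : 1 ≤ n) {s c : ℝ} {S : Set ℝ}
    (h : ∀ f : ZMod (2 * n) → ℤ × ℤ, IsLoop (2 * n) f → (area (2 * n) f : ℝ) ∈ S →
      c ≤ s * area (2 * n) f / n) : Real.exp c * pr n S ≤ mgf n s := by
  classical
  unfold mgf pr
  rw [finsum_mem_eq_finite_toFinset_sum _ (loops_finite hn), mul_div_assoc']
  apply div_le_div_of_nonneg_right _ (Nat.cast_nonneg _)
  have h1 : {f : ZMod (2 * n) → ℤ × ℤ | IsLoop (2 * n) f ∧ (area (2 * n) f : ℝ) ∈ S}.ncard =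
      ((loops_finite hn).toFinset.filter (fun f => (area (2 * n) f : ℝ) ∈ S)).card := by
    rw [← Set.ncard_coe_finset]
    congr 1
    ext f
    simp
  rw [h1, mul_comm, ← nsmul_eq_mul]
  refine (Finset.card_nsmul_le_sum _ (fun f => Real.exp (s * area (2 * n) f / n)) _ ?_).trans
    (Finset.sum_le_sum_of_subset_of_nonneg (Finset.filter_subset _ _)
      fun _ _ _ => (Real.exp_pos _).le)
  intro f hf
  rw [Finset.mem_filter, Set.Finite.mem_toFinset] at hf
  exact Real.exp_le_exp.2 (h f hf.1 hf.2)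

theorem mgf_upper {n : ℕ} (hn : 1 ≤ n) {s : ℝ} {m : ℕ} {c : ℕ → ℝ} {S : ℕ → Set ℝ}
    (h : ∀ f : ZMod (2 * n) → ℤ × ℤ, IsLoop (2 * n) f → ∃ i < m, (area (2 * n) f : ℝ) ∈ S i ∧
      s * area (2 * n) f / n ≤ c i) :
    mgf n s ≤ ∑ i ∈ Finset.range m, Real.exp (c i) * pr n (S i) := by
  classical
  unfold mgf pr
  simp only [mul_div_assoc']
  rw [finsum_mem_eq_finite_toFinset_sum _ (loops_finite hn), ← Finset.sum_div]
  apply div_le_div_of_nonneg_right _ (Nat.cast_nonneg _)
  have h1 : ∀ i, (({f : ZMod (2 * n) → ℤ × ℤ | IsLoop (2 * n) f ∧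
      (area (2 * n) f : ℝ) ∈ S i}.ncard : ℕ) : ℝ) =
      ∑ f ∈ (loops_finite hn).toFinset, if (area (2 * n) f : ℝ) ∈ S i then (1 : ℝ) else 0 := by
    intro i
    rw [Finset.sum_boole, ← Set.ncard_coe_finset]
    congr 2
    ext f
    simp
  simp only [h1, Finset.mul_sum]
  rw [Finset.sum_comm]
  apply Finset.sum_le_sum
  intro f hf
  rw [Set.Finite.mem_toFinset] at hf
  obtain ⟨i, hi, hS, hc⟩ := h f hf
  refine le_trans ?_ (Finset.single_le_sum (f := fun i => Real.exp (c i) *
    (if (area (2 * n) f : ℝ) ∈ S i then (1 : ℝ) else 0)) (fun j _ => ?_) (Finset.mem_range.2 hi))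
  · simp only [hS, if_true, mul_one]
    exact Real.exp_le_exp.2 hc
  · have := Real.exp_pos (c j)
    split_ifs <;> simp [this.le]

/-- the free energy -/
noncomputable def FE (s : ℝ) : ℝ := sSup ((fun u : ℝ => s * u - RR u) '' Icc 0 (1 / 4))

theorem FE_cont (s : ℝ) : ContinuousOn (fun u : ℝ => s * u - RR u) (Icc 0 (1 / 4)) :=
  (continuousOn_const.mul continuousOn_id).sub RR_cont

theorem FE_bdd (s : ℝ) : BddAbove ((fun u : ℝ => s * u - RR u) '' Icc 0 (1 / 4)) :=
  (isCompact_Icc.image_of_continuousOn (FE_cont s)).bddAbove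

theorem le_FE (s : ℝ) {u : ℝ} (hu : u ∈ Icc (0 : ℝ) (1 / 4)) : s * u - RR u ≤ FE s :=
  le_csSup (FE_bdd s) ⟨u, hu, rfl⟩

/-- the supremum over the half-open interval -/
theorem exists_FE (s : ℝ) {ε : ℝ} (hε : 0 < ε) : ∃ u : ℝ, 0 ≤ u ∧ u < 1 / 4 ∧
    FE s < s * u - RR u + ε := by
  obtain ⟨x, ⟨u, hu, rfl⟩, hx⟩ := exists_lt_of_lt_csSup
    (⟨_, 0, by norm_num, rfl⟩ : ((fun u : ℝ => s * u - RR u) '' Icc 0 (1 / 4)).Nonempty)
    (show FE s - ε < FE s by linarith)
  simp only at hx
  rcases hu.2.lt_or_eq with h | h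
  · exact ⟨u, hu.1, h, by linarith⟩
  · have hc : Tendsto (fun u : ℝ => s * u - RR u) (𝓝[<] (1 / 4)) (𝓝 (s * (1 / 4) - RR (1 / 4))) := by
      refine (FE_cont s (1 / 4) (by norm_num)).mono_left ?_
      rw [← nhdsWithin_Ico_eq_nhdsLT (show (0 : ℝ) < 1 / 4 by norm_num)]
      exact nhdsWithin_mono _ fun x hx => ⟨hx.1, hx.2.le⟩
    rw [h] at hx
    have h2 : ∀ᶠ x : ℝ in 𝓝[<] (1 / 4), x ∈ Ioo 0 (1 / 4) :=
      Ioo_mem_nhdsLT (by norm_num)
    obtain ⟨v, hv1, hv2⟩ := ((hc.eventually_const_lt hx).and h2).exists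
    exact ⟨v, hv2.1.le, hv2.2, by linarith⟩

theorem pressure (s : ℝ) : Tendsto (fun n : ℕ => Real.log (mgf n s) / n) atTop (𝓝 (FE s)) := by
  rw [Metric.tendsto_nhds]
  intro ε hε
  -- lower bound
  obtain ⟨u, hu0, hu4, hu⟩ := exists_FE s (show 0 < ε / 4 by linarith)
  obtain ⟨w, hw⟩ : ∃ w, w = ε / (4 * (|s| + 1)) := ⟨_, rfl⟩
  have hs1 : 0 < |s| + 1 := by positivity
  have hw0 : 0 < w := by rw [hw]; positivity
  have hw1 : |s| * w ≤ ε / 4 := by
    rw [hw, mul_div_assoc', div_le_div_iff₀ (by positivity) (by norm_num)]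
    nlinarith [abs_nonneg s]
  have hI := interval_low hu0 hu4 (show u < u + w by linarith)
    (S := fun n => Ioo (u * (n : ℝ) ^ 2) ((u + w) * (n : ℝ) ^ 2)) (fun n => le_rfl)
    (show 0 < ε / 4 by linarith)
  -- upper bound
  obtain ⟨m, hm⟩ := exists_nat_gt ((|s| + 1) / ε)
  have hm0 : (0 : ℝ) < m := lt_trans (by positivity) hm
  have hm1 : (|s| + 1) / m < ε := by
    rw [div_lt_iff₀ hm0]
    rw [div_lt_iff₀ hε] at hm
    linarith
  have hmN : 0 < m := by exact_mod_cast hm0
  have hev : ∀ᶠ n : ℕ in atTop, ∀ i ∈ Finset.range m,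
      pr n (Ici (((i : ℝ) / (4 * m)) * (n : ℝ) ^ 2)) ≤
        Real.exp (-((RR ((i : ℝ) / (4 * m)) - ε / 4) * n)) := by
    rw [Filter.eventually_all_finset]
    intro i hi
    rw [Finset.mem_range] at hi
    rcases Nat.eq_zero_or_pos i with h0 | h0
    · filter_upwards [eventually_ge_atTop 1] with n hn
      refine (pr_le_one hn _).trans ?_
      rw [h0, Nat.cast_zero, zero_div, RR_zero]
      apply Real.one_le_exp
      have : (0 : ℝ) ≤ n := Nat.cast_nonneg _
      nlinarith
    · have hi0 : (0 : ℝ) < i := by exact_mod_cast h0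
      have hi1 : (i : ℝ) < m := by exact_mod_cast hi
      filter_upwards [ev_par (show 0 < (i : ℝ) / (4 * m) by positivity)
        (by rw [div_lt_iff₀ (by positivity)]; linarith) (show 0 < ε / 4 by linarith)] with n hn
      rw [pr_Ici]
      exact hn.2
  filter_upwards [hI, hev,
    PG.lower (show (0 : ℝ) < 1 / 8 by norm_num) (by norm_num) hε,
    eventually_ge_atTop 1,
    tendsto_natCast_atTop_atTop.eventually_gt_atTop (Real.log m / (ε / 4))]
    with n g1 g2 g3 g4 g5
  have hn : (0 : ℝ) < n := by exact_mod_cast g4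
  rw [div_lt_iff₀ (by linarith)] at g5
  -- positivity of the moment
  have hln : (0 : ℝ) < ({f : ZMod (2 * n) → ℤ × ℤ | IsLoop (2 * n) f}.ncard : ℝ) := by
    by_contra hcon
    have h0 : ({f : ZMod (2 * n) → ℤ × ℤ | IsLoop (2 * n) f}.ncard : ℝ) = 0 :=
      le_antisymm (not_lt.1 hcon) (Nat.cast_nonneg _)
    have := g3.1
    unfold Y981.L2.par at this
    rw [h0, div_zero] at this
    exact lt_irrefl _ this
  -- upper bound
  have hup : mgf n s ≤ Real.exp ((FE s + ε / 4 + |s| / (4 * m)) * n + Real.log m) := by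
    refine (mgf_upper g4 (s := s) (m := m)
      (c := fun i => (s * ((i : ℝ) / (4 * m)) + |s| / (4 * m)) * n)
      (S := fun i => Ici (((i : ℝ) / (4 * m)) * (n : ℝ) ^ 2)) ?_).trans ?_
    · intro f hf
      have ha := area_quarter g4 hf
      have ha0 : (0 : ℝ) ≤ area (2 * n) f := Nat.cast_nonneg _
      obtain ⟨v, hv⟩ : ∃ v, v = (area (2 * n) f : ℝ) / (n : ℝ) ^ 2 := ⟨_, rfl⟩
      have hv0 : 0 ≤ v := by rw [hv]; positivity
      have hv4 : v ≤ 1 / 4 := by
        rw [hv, div_le_iff₀ (by positivity)]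
        exact ha
      have hav : (area (2 * n) f : ℝ) = v * (n : ℝ) ^ 2 := by
        rw [hv]
        field_simp
      have hexp : s * (area (2 * n) f : ℝ) / n = s * v * n := by
        rw [hav]
        field_simp
      -- the index
      obtain ⟨i, hi, hi1, hi2⟩ : ∃ i < m, (i : ℝ) / (4 * m) ≤ v ∧ v ≤ (i : ℝ) / (4 * m) + 1 / (4 * m) := by
        rcases hv4.lt_or_eq with h | h
        · refine ⟨⌊v * (4 * m)⌋₊, ?_, ?_, ?_⟩
          · rw [Nat.floor_lt (by positivity)]
            nlinarith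
          · rw [div_le_iff₀ (by positivity)]
            exact Nat.floor_le (by positivity)
          · rw [← add_div, le_div_iff₀ (by positivity)]
            exact (Nat.lt_floor_add_one _).le
        · refine ⟨m - 1, by omega, ?_, ?_⟩
          · rw [h, Nat.cast_sub (by omega), div_le_iff₀ (by positivity)]
            push_cast
            linarith
          · rw [h, Nat.cast_sub (by omega), ← add_div, le_div_iff₀ (by positivity)]
            push_cast
            linarith
      refine ⟨i, hi, ?_, ?_⟩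
      · show ((i : ℝ) / (4 * m)) * (n : ℝ) ^ 2 ≤ (area (2 * n) f : ℝ)
        rw [hav]
        exact mul_le_mul_of_nonneg_right hi1 (by positivity)
      · rw [hexp]
        apply mul_le_mul_of_nonneg_right _ hn.le
        have h1 : s * (v - (i : ℝ) / (4 * m)) ≤ |s| * (1 / (4 * m)) := by
          refine (le_abs_self _).trans ?_
          rw [abs_mul, abs_of_nonneg (by linarith : 0 ≤ v - (i : ℝ) / (4 * m))]
          exact mul_le_mul_of_nonneg_left (by linarith) (abs_nonneg s)
        have e : |s| * (1 / (4 * m)) = |s| / (4 * m) := by ring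
        rw [e] at h1
        linarith
    · have hterm : ∀ i ∈ Finset.range m,
          Real.exp ((s * ((i : ℝ) / (4 * m)) + |s| / (4 * m)) * n) *
            pr n (Ici (((i : ℝ) / (4 * m)) * (n : ℝ) ^ 2)) ≤
          Real.exp ((FE s + ε / 4 + |s| / (4 * m)) * n) := by
        intro i hi
        have h1 := g2 i hi
        rw [Finset.mem_range] at hi
        have hi1 : (i : ℝ) < m := by exact_mod_cast hi
        have h2 : (i : ℝ) / (4 * m) ∈ Icc (0 : ℝ) (1 / 4) := by
          refine ⟨by positivity, ?_⟩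
          rw [div_le_iff₀ (by positivity)]
          linarith
        have h3 := le_FE s h2
        refine (mul_le_mul_of_nonneg_left h1 (Real.exp_pos _).le).trans ?_
        rw [← Real.exp_add]
        apply Real.exp_le_exp.2
        nlinarith
      refine (Finset.sum_le_card_nsmul _ _ _ hterm).trans (le_of_eq ?_)
      rw [Finset.card_range, nsmul_eq_mul, Real.exp_add, Real.exp_log hm0]
      ring
  -- lower bound
  have hlow : Real.exp ((s * u - ε / 4) * n) *
      pr n (Ioo (u * (n : ℝ) ^ 2) ((u + w) * (n : ℝ) ^ 2)) ≤ mgf n s := by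
    apply mgf_lower g4
    intro f _ hfS
    have h1 : u * (n : ℝ) ^ 2 < (area (2 * n) f : ℝ) := hfS.1
    have h2 : (area (2 * n) f : ℝ) < (u + w) * (n : ℝ) ^ 2 := hfS.2
    obtain ⟨v, hv⟩ : ∃ v, v = (area (2 * n) f : ℝ) / (n : ℝ) ^ 2 := ⟨_, rfl⟩
    have hav : (area (2 * n) f : ℝ) = v * (n : ℝ) ^ 2 := by
      rw [hv]
      field_simp
    rw [hav] at h1 h2 ⊢
    have hn2 : (0 : ℝ) < (n : ℝ) ^ 2 := by positivity
    have h3 : u < v := lt_of_mul_lt_mul_right h1 hn2.le
    have h4 : v < u + w := lt_of_mul_lt_mul_right h2 hn2.le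
    have e : s * (v * (n : ℝ) ^ 2) / n = s * v * n := by field_simp
    rw [e]
    apply mul_le_mul_of_nonneg_right _ hn.le
    have h5 : -(|s| * w) ≤ s * (v - u) := by
      refine le_trans ?_ (neg_abs_le _)
      rw [abs_mul, abs_of_nonneg (by linarith : 0 ≤ v - u), neg_le_neg_iff]
      exact mul_le_mul_of_nonneg_left (by linarith) (abs_nonneg s)
    linarith
  obtain ⟨P, hP⟩ : ∃ P, P = pr n (Ioo (u * (n : ℝ) ^ 2) ((u + w) * (n : ℝ) ^ 2)) := ⟨_, rfl⟩
  simp only [← hP] at g1 hlow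
  have hm' : 0 < mgf n s := by
    have h1 := mgf_lower g4 (s := s) (c := -(|s| * (1 / 4) * n)) (S := univ) (by
      intro f hf _
      have ha := area_quarter g4 hf
      have ha0 : (0 : ℝ) ≤ area (2 * n) f := Nat.cast_nonneg _
      rw [le_div_iff₀ hn]
      have h2 : -(|s| * area (2 * n) f) ≤ s * area (2 * n) f := by
        refine le_trans ?_ (neg_abs_le _)
        rw [abs_mul, abs_of_nonneg ha0]
      nlinarith [abs_nonneg s])
    refine lt_of_lt_of_le (mul_pos (Real.exp_pos _) ?_) h1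
    unfold pr
    simp only [mem_univ, and_true]
    exact div_pos hln hln
  rw [Real.dist_eq, abs_lt]
  constructor
  · have h0 : 0 < P := (Real.exp_pos _).trans_le g1
    have h1 := Real.log_le_log (mul_pos (Real.exp_pos _) h0) hlow
    rw [Real.log_mul (Real.exp_pos _).ne' h0.ne', Real.log_exp] at h1
    have g1' := Real.log_le_log (Real.exp_pos _) g1
    rw [Real.log_exp] at g1'
    have h2 : FE s - ε < Real.log (mgf n s) / n := by
      rw [lt_div_iff₀ hn]
      nlinarith
    linarith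
  · have h1 := Real.log_le_log hm' hup
    rw [Real.log_exp] at h1
    have h2 : Real.log (mgf n s) / n < FE s + ε := by
      rw [div_lt_iff₀ hn]
      have h3 : |s| / (4 * m) < ε / 4 := by
        have : |s| / (4 * m) ≤ ((|s| + 1) / m) / 4 := by
          rw [div_div, mul_comm (m : ℝ) 4]
          gcongr
          linarith
        linarith
      nlinarith
    linarith

end Pool.Agent.H26.WF
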