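import Pool.Agent.H26.AR.Vol

/-!
The rate function of the area: convexity, continuity, monotonicity, values.
-/

set_option autoImplicit false

open MeasureTheory Set Filter Topology
open scoped Pointwise ENNReal

namespace Pool.Agent.H26.WF

open Pool.Agent.T6.H44
open Pool.Agent.Y981.L2 (Lam Rate)
open H981 (mu)

/-- the rate function of the area -/
noncomputable def RR (u : ℝ) : ℝ := sSup ((fun E : ℝ => 2 * √(u * V E) - 2 * E) '' Ioi 0)

/-- the same as a function of the square root -/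
noncomputable def rho (r : ℝ) : ℝ := sSup ((fun E : ℝ => 2 * (r * g E) - 2 * E) '' Ioi 0)

theorem RR_eq {u : ℝ} (hu : 0 ≤ u) : RR u = rho √u := by
  unfold RR rho g
  simp only [Real.sqrt_mul hu]

theorem rho_eq {r : ℝ} (hr : 0 ≤ r) : rho r = RR (r ^ 2) := by
  rw [RR_eq (sq_nonneg r), Real.sqrt_sq hr]

theorem rho_bd {r : ℝ} (h0 : 0 ≤ r) (h1 : r ≤ 1 / 2) {E : ℝ} (hE : 0 < E) :
    2 * (r * g E) - 2 * E ≤ 2 * Real.log mu := by
  have h2 := g_le hE.le
  have h3 := mul_le_mul h1 h2 (g_nonneg E) (by norm_num)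
  linarith

theorem rho_bdd {r : ℝ} (h0 : 0 ≤ r) (h1 : r ≤ 1 / 2) :
    BddAbove ((fun E : ℝ => 2 * (r * g E) - 2 * E) '' Ioi 0) := by
  refine ⟨2 * Real.log mu, ?_⟩
  rintro _ ⟨E, hE, rfl⟩
  exact rho_bd h0 h1 hE

theorem ne_im (f : ℝ → ℝ) : (f '' Ioi 0).Nonempty := ⟨_, 1, by simp, rfl⟩

theorem le_rho {r : ℝ} (h0 : 0 ≤ r) (h1 : r ≤ 1 / 2) {E : ℝ} (hE : 0 < E) :
    2 * (r * g E) - 2 * E ≤ rho r :=
  le_csSup (rho_bdd h0 h1) ⟨E, hE, rfl⟩

theorem rho_le {r : ℝ} {b : ℝ} (h : ∀ E : ℝ, 0 < E → 2 * (r * g E) - 2 * E ≤ b) : rho r ≤ b := by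
  apply csSup_le (ne_im _)
  rintro _ ⟨E, hE, rfl⟩
  exact h E hE

theorem rho_nonneg {r : ℝ} (h0 : 0 ≤ r) (h1 : r ≤ 1 / 2) : 0 ≤ rho r := by
  apply le_of_forall_pos_le_add
  intro ε hε
  have h2 := le_rho h0 h1 (show 0 < ε / 2 by linarith)
  have h3 := mul_nonneg h0 (g_nonneg (ε / 2))
  linarith

theorem rho_zero : rho 0 = 0 := by
  apply le_antisymm _ (rho_nonneg le_rfl (by norm_num))
  apply rho_le
  intro E hE
  linarith

theorem rho_convex : ConvexOn ℝ (Icc 0 (1 / 2)) rho := by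
  refine ⟨convex_Icc _ _, ?_⟩
  intro x hx y hy a b ha hb hab
  simp only [smul_eq_mul]
  apply rho_le
  intro E hE
  have h1 := mul_le_mul_of_nonneg_left (le_rho hx.1 hx.2 hE) ha
  have h2 := mul_le_mul_of_nonneg_left (le_rho hy.1 hy.2 hE) hb
  have h3 : 2 * ((a * x + b * y) * g E) - 2 * E =
      a * (2 * (x * g E) - 2 * E) + b * (2 * (y * g E) - 2 * E) := by
    have : b = 1 - a := by linarith
    rw [this]
    ring
  linarith

theorem rho_scale {r s : ℝ} (h0 : 0 ≤ r) (hrs : r ≤ s) (hs : s ≤ 1 / 2) (hs0 : 0 < s) :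
    rho r ≤ r / s * rho s := by
  have h := rho_convex.2 (show s ∈ Icc (0 : ℝ) (1 / 2) from ⟨hs0.le, hs⟩)
    (show (0 : ℝ) ∈ Icc (0 : ℝ) (1 / 2) by norm_num) (show 0 ≤ r / s by positivity)
    (show 0 ≤ 1 - r / s by rw [sub_nonneg, div_le_one hs0]; exact hrs) (by ring)
  simp only [smul_eq_mul, mul_zero, add_zero, rho_zero] at h
  rwa [div_mul_cancel₀ _ hs0.ne'] at h

/-- the limit of the logarithms of the probabilities -/
theorem tendsto_par {u : ℝ} (hu : 0 < u) (hu4 : u < 1 / 4) :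
    Tendsto (fun n : ℕ => Real.log (Y981.L2.par n (u * (n : ℝ) ^ 2)) / n) atTop
      (𝓝 (-RR u)) := by
  have h := PG.rate_area hu hu4
  have h2 : PG.Phi u = RR u := (wulff hu hu4).2
  rwa [h2] at h

theorem rho_pos {r : ℝ} (h0 : 0 < r) (h1 : r ≤ 1 / 2) : 0 < rho r := by
  have key : ∀ s : ℝ, 0 < s → s < 1 / 2 → 0 < rho s := by
    intro s hs hs1
    have hu : 0 < s ^ 2 := by positivity
    have hu4 : s ^ 2 < 1 / 4 := by nlinarith
    have ht := tendsto_par hu hu4
    have hle : 2 * Rate (s, s) ≤ RR (s ^ 2) := by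
      apply le_of_forall_pos_le_add
      intro ε hε
      have h2 := le_of_tendsto ht (by
        filter_upwards [Pool.Agent.T6.H53.AL.area_rate hu hu4 hε] with n hn
        exact hn.2)
      rw [Real.sqrt_sq hs.le] at h2
      linarith
    have hd : ((s, s) : ℝ × ℝ) ∈ Y981.L2.Dia := by
      show |s| + |s| ≤ 1
      rw [abs_of_pos hs]
      linarith
    have h3 := Y981.L2.R_le_rate hd
    simp only [abs_of_pos hs] at h3
    have h4 := Pool.Agent.T6.H53.WL.R_pos hs (by linarith)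
    rw [rho_eq hs.le]
    linarith
  rcases h1.lt_or_eq with h | h
  · exact key r h0 h
  · have h2 := key (r / 2) (by linarith) (by linarith)
    have h3 := rho_scale (show 0 ≤ r / 2 by linarith) (show r / 2 ≤ r by linarith) h1 h0
    have h4 : r / 2 / r = 1 / 2 := by field_simp
    rw [h4] at h3
    linarith

theorem rho_strict : StrictMonoOn rho (Icc 0 (1 / 2)) := by
  intro r hr s hs hrs
  have hs0 : 0 < s := hr.1.trans_lt hrs
  have h1 := rho_scale hr.1 hrs.le hs.2 hs0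
  have h2 := rho_pos hs0 hs.2
  have h3 : r / s < 1 := by rw [div_lt_one hs0]; exact hrs
  nlinarith

theorem rho_cont : ContinuousOn rho (Icc 0 (1 / 2)) := by
  intro r hr
  rcases hr.1.eq_or_lt with h0 | h0
  · -- at `0`
    subst h0
    have hb : ∀ s ∈ Icc (0 : ℝ) (1 / 2), rho s ≤ 2 * s * rho (1 / 2) := by
      intro s hs
      have := rho_scale hs.1 hs.2 le_rfl (by norm_num)
      have e : s / (1 / 2) = 2 * s := by ring
      rwa [e] at this
    have hlim : Tendsto (fun s : ℝ => 2 * s * rho (1 / 2)) (𝓝[Icc 0 (1 / 2)] 0) (𝓝 0) := by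
      have : Tendsto (fun s : ℝ => 2 * s * rho (1 / 2)) (𝓝 0) (𝓝 (2 * 0 * rho (1 / 2))) :=
        (Continuous.tendsto (by fun_prop) _)
      rw [mul_zero, zero_mul] at this
      exact this.mono_left nhdsWithin_le_nhds
    show Tendsto rho (𝓝[Icc 0 (1 / 2)] 0) (𝓝 (rho 0))
    rw [rho_zero]
    refine tendsto_of_tendsto_of_tendsto_of_le_of_le' tendsto_const_nhds hlim ?_ ?_
    · filter_upwards [self_mem_nhdsWithin] with s hs
      exact rho_nonneg hs.1 hs.2
    · filter_upwards [self_mem_nhdsWithin] with s hs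
      exact hb s hs
  rcases hr.2.eq_or_lt with h1 | h1
  · -- at `1/2`
    show Tendsto rho (𝓝[Icc 0 (1 / 2)] r) (𝓝 (rho r))
    rw [h1]
    rw [tendsto_order]
    constructor
    · intro a ha
      obtain ⟨x, ⟨E, hE, rfl⟩, hx⟩ := exists_lt_of_lt_csSup (ne_im _) ha
      have hc : Tendsto (fun s : ℝ => 2 * (s * g E) - 2 * E) (𝓝[Icc 0 (1 / 2)] (1 / 2))
          (𝓝 (2 * (1 / 2 * g E) - 2 * E)) :=
        (Continuous.tendsto (by fun_prop) _).mono_left nhdsWithin_le_nhds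
      filter_upwards [hc.eventually_const_lt hx, self_mem_nhdsWithin] with s hs hs2
      exact hs.trans_le (le_rho hs2.1 hs2.2 hE)
    · intro b hb
      filter_upwards [self_mem_nhdsWithin] with s hs
      have h2 := rho_scale hs.1 hs.2 le_rfl (by norm_num)
      have h3 : s / (1 / 2) ≤ 1 := by rw [div_le_one (by norm_num)]; exact hs.2
      have h4 := rho_nonneg (show (0 : ℝ) ≤ 1 / 2 by norm_num) le_rfl
      nlinarith
  · have h2 : ContinuousOn rho (interior (Icc 0 (1 / 2))) := rho_convex.continuousOn_interior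
    rw [interior_Icc] at h2
    exact (h2.continuousAt (isOpen_Ioo.mem_nhds ⟨h0, h1⟩)).continuousWithinAt

theorem sqrt_mem {u : ℝ} (hu : u ∈ Icc (0 : ℝ) (1 / 4)) : √u ∈ Icc (0 : ℝ) (1 / 2) := by
  refine ⟨Real.sqrt_nonneg u, ?_⟩
  rw [Real.sqrt_le_left (by norm_num)]
  have := hu.2
  linarith

theorem RR_cont : ContinuousOn RR (Icc 0 (1 / 4)) := by
  have h1 : ContinuousOn (fun u : ℝ => rho √u) (Icc 0 (1 / 4)) :=
    rho_cont.comp Real.continuous_sqrt.continuousOn (fun u hu => sqrt_mem hu)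
  refine h1.congr ?_
  intro u hu
  exact RR_eq hu.1

theorem RR_strict : StrictMonoOn RR (Icc 0 (1 / 4)) := by
  intro u hu v hv huv
  rw [RR_eq hu.1, RR_eq hv.1]
  exact rho_strict (sqrt_mem hu) (sqrt_mem hv) (Real.sqrt_lt_sqrt hu.1 huv)

theorem RR_zero : RR 0 = 0 := by
  rw [RR_eq le_rfl, Real.sqrt_zero, rho_zero]

theorem RR_nonneg {u : ℝ} (hu : u ∈ Icc (0 : ℝ) (1 / 4)) : 0 ≤ RR u := by
  rw [RR_eq hu.1]
  exact rho_nonneg (sqrt_mem hu).1 (sqrt_mem hu).2

/-- the value at the end -/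
theorem rho_half : rho (1 / 2) = 2 * Real.log mu := by
  apply le_antisymm
  · exact rho_le fun E hE => rho_bd (by norm_num) le_rfl hE
  · apply le_of_forall_pos_le_add
    intro ε hε
    obtain ⟨δ, hδ⟩ : ∃ δ, δ = ε / 4 := ⟨_, rfl⟩
    have hδ0 : 0 < δ := by rw [hδ]; linarith
    have he1 : Real.exp (-δ) < 1 := by
      rw [← Real.exp_zero]
      exact Real.exp_lt_exp.2 (by linarith)
    -- choose `L`
    have hL : Tendsto (fun L : ℝ => Real.exp (-L)) atTop (𝓝 0) := Real.tendsto_exp_neg_atTop_nhds_zero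
    obtain ⟨L, hL1, hL2⟩ := ((hL.eventually_lt_const
      (show (0 : ℝ) < (1 - Real.exp (-δ)) / 4 by linarith)).and
        (eventually_ge_atTop δ)).exists
    have hM1 : ∀ᶠ M : ℝ in atTop, Real.exp (-M) < (1 - Real.exp (-δ)) / 4 :=
      hL.eventually_lt_const (by linarith)
    obtain ⟨M, hMa, hMb, hMc, hMd, hMe⟩ := ((hM1.and ((eventually_ge_atTop (L + 1)).and
      ((eventually_gt_atTop (Real.log mu)).and
        ((eventually_ge_atTop ((L - δ) ^ 2 / δ + δ)).and (eventually_ge_atTop (2 * δ)))))).exists)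
    obtain ⟨E, hE⟩ : ∃ E, E = M - Real.log mu := ⟨_, rfl⟩
    have hEM : E + Real.log mu = M := by rw [hE]; ring
    have hE0 : 0 < E := by rw [hE]; linarith
    have hc := cross (E := E) (δ := δ) (L := L) hδ0.le hL2 (by rw [hEM]; linarith)
      (by rw [hEM]; linarith)
    rw [hEM] at hc
    have hMδ : 0 < M - δ := by linarith
    -- `√V ≥ 2 (M - 2 δ)`
    have h1 : (2 * (M - 2 * δ)) ^ 2 ≤ V E := by
      have h2 : (L - δ) ^ 2 ≤ δ * (M - δ) := by
        have h3 : (L - δ) ^ 2 / δ ≤ M - δ := by linarith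
        rw [div_le_iff₀ hδ0] at h3
        linarith
      have h3 : 0 ≤ δ * (M - 2 * δ) := mul_nonneg hδ0.le (by linarith)
      nlinarith
    have h4 : 2 * (M - 2 * δ) ≤ g E := by
      unfold g
      exact Real.le_sqrt_of_sq_le h1
    have h5 := le_rho (show (0 : ℝ) ≤ 1 / 2 by norm_num) le_rfl hE0
    linarith

theorem RR_quarter : RR (1 / 4) = 2 * Real.log mu := by
  rw [RR_eq (by norm_num)]
  have : √(1 / 4 : ℝ) = 1 / 2 := by
    rw [show (1 / 4 : ℝ) = (1 / 2) ^ 2 by norm_num, Real.sqrt_sq (by norm_num)]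
  rw [this, rho_half]

end Pool.Agent.H26.WF
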