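import Pool.Agent.H26.AR.Frm
import Pool.Graph.R_seed8.Y981.L2X.Dir
import Pool.Graph.R_pool_sql_team_seeded_47a924f7.T6.H53.AL.Area2

/-!
The areas of the sublevel sets of `Lam`, and the rate function of the area.
-/

set_option autoImplicit false

open MeasureTheory Set Filter Topology
open scoped Pointwise ENNReal

namespace Pool.Agent.H26.WF

open Pool.Agent.T6.H44
open Pool.Agent.Y981.L2 (Lam Rate)
open H981 (mu)

/-- the sublevel sets -/
def Kc (E : ℝ) : Set (ℝ × ℝ) := {h | Lam h ≤ E}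

/-- their areas -/
noncomputable def V (E : ℝ) : ℝ := volume.real (Kc E)

theorem Kc_props {E : ℝ} (hE : 0 < E) : Convex ℝ (Kc E) ∧ IsCompact (Kc E) ∧
    (0 : ℝ × ℝ) ∈ interior (Kc E) := by
  obtain ⟨h1, h2, h3, -⟩ := AR.kep Rate PG.rt_rate E hE
  rw [KE_eq] at h1 h2 h3
  exact ⟨h1, h2, h3⟩

theorem log_mu_nonneg : 0 ≤ Real.log mu := Pool.Agent.T6.H53.WL.log_mu_nonneg

theorem V_le {E : ℝ} (hE : 0 ≤ E) : V E ≤ (2 * (E + Real.log mu)) ^ 2 := by
  obtain ⟨M, hM⟩ : ∃ M, M = E + Real.log mu := ⟨_, rfl⟩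
  have hM0 : 0 ≤ M := by rw [hM]; linarith [log_mu_nonneg]
  rw [← hM]
  have hsub : Kc E ⊆ Icc (-M) M ×ˢ Icc (-M) M := by
    intro h hh
    have h0 : Lam h ≤ E := hh
    obtain ⟨h1, h2⟩ := Y981.L2.abs_le_Lam h
    rw [mem_prod, mem_Icc, mem_Icc, ← abs_le, ← abs_le]
    exact ⟨by linarith, by linarith⟩
  have hv : volume (Icc (-M) M ×ˢ Icc (-M) M : Set (ℝ × ℝ)) = ENNReal.ofReal ((2 * M) ^ 2) := by
    rw [Measure.volume_eq_prod, Measure.prod_prod, Real.volume_Icc, ← ENNReal.ofReal_mul (by linarith)]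
    congr 1
    ring
  unfold V Measure.real
  refine ENNReal.toReal_le_of_le_ofReal (by positivity) ?_
  rw [← hv]
  exact measure_mono hsub

theorem V_nonneg (E : ℝ) : 0 ≤ V E := measureReal_nonneg

/-- the square root of the area -/
noncomputable def g (E : ℝ) : ℝ := √(V E)

theorem g_nonneg (E : ℝ) : 0 ≤ g E := Real.sqrt_nonneg _

theorem g_le {E : ℝ} (hE : 0 ≤ E) : g E ≤ 2 * (E + Real.log mu) := by
  unfold g
  rw [Real.sqrt_le_left (by linarith [log_mu_nonneg])]
  exact V_le hE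

/-- upper bound of `Lam` -/
theorem Lam_le_log (h : ℝ × ℝ) : Lam h + Real.log mu ≤
    Real.log (Real.exp h.1 + Real.exp (-h.1) + Real.exp h.2 + Real.exp (-h.2)) := by
  have h1 := Y981.L2.Lam_le h (n := 1) le_rfl
  rw [Nat.cast_one, one_mul] at h1
  refine h1.trans (Real.log_le_log (Y981.L2.Z_pos h 1) ?_)
  have h2 : TH795.EP.fs H981.Saw 1 ⊆ {[H981.St.E], [H981.St.W], [H981.St.N], [H981.St.S]} := by
    intro w hw
    obtain ⟨-, hl⟩ := TH795.EP.mem_fs.1 hw
    obtain ⟨s, rfl⟩ := List.length_eq_one_iff.1 hl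
    cases s <;> simp
  unfold Y981.L2.Z
  refine (Finset.sum_le_sum_of_subset_of_nonneg h2 fun _ _ _ => (Real.exp_pos _).le).trans ?_
  rw [Finset.sum_insert (by simp), Finset.sum_insert (by simp), Finset.sum_insert (by simp),
    Finset.sum_singleton]
  simp [H981.dx, H981.dy, H981.St.x, H981.St.y]
  linarith

/-- a cross inside the sublevel set -/
theorem cross {E δ L : ℝ} (_hδ : 0 ≤ δ) (hδL : δ ≤ L) (hLM : L ≤ E + Real.log mu)
    (h : Real.exp (-δ) + Real.exp (-L) + 2 * Real.exp (-(E + Real.log mu)) ≤ 1) :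
    4 * ((E + Real.log mu - δ) ^ 2 - (L - δ) ^ 2) ≤ V E := by
  obtain ⟨M, hM⟩ : ∃ M, M = E + Real.log mu := ⟨_, rfl⟩
  rw [← hM] at hLM h ⊢
  have hex : ∀ a c : ℝ, |a| ≤ c → Real.exp a + Real.exp (-a) ≤ Real.exp c + 1 := by
    intro a c ha
    rcases le_total 0 a with h0 | h0
    · rw [abs_of_nonneg h0] at ha
      have h1 := Real.exp_le_exp.2 ha
      have h2 : Real.exp (-a) ≤ 1 := Real.exp_le_one_iff.2 (by linarith)
      linarith
    · rw [abs_of_nonpos h0] at ha
      have h1 := Real.exp_le_exp.2 ha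
      have h2 : Real.exp a ≤ 1 := Real.exp_le_one_iff.2 h0
      linarith
  have hMe : Real.exp (M - δ) + Real.exp (M - L) + 2 ≤ Real.exp M := by
    have h1 := mul_le_mul_of_nonneg_left h (Real.exp_pos M).le
    rw [mul_one, mul_add, mul_add, ← Real.exp_add, ← Real.exp_add, mul_left_comm, ← Real.exp_add,
      add_neg_cancel, Real.exp_zero] at h1
    simpa [sub_eq_add_neg] using h1
  have key : ∀ x : ℝ × ℝ, (|x.1| ≤ M - δ ∧ |x.2| ≤ M - L) ∨ (|x.1| ≤ M - L ∧ |x.2| ≤ M - δ) →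
      x ∈ Kc E := by
    intro x hx
    show Lam x ≤ E
    have h1 := Lam_le_log x
    have h2 : Real.log (Real.exp x.1 + Real.exp (-x.1) + Real.exp x.2 + Real.exp (-x.2)) ≤ M := by
      rw [Real.log_le_iff_le_exp (by positivity)]
      rcases hx with ⟨h3, h4⟩ | ⟨h3, h4⟩
      · have := hex _ _ h3
        have := hex _ _ h4
        linarith
      · have := hex _ _ h3
        have := hex _ _ h4
        linarith
    linarith
  obtain ⟨A, hA⟩ : ∃ A : Set (ℝ × ℝ), A = Icc (-(M - δ)) (M - δ) ×ˢ Icc (-(M - L)) (M - L) :=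
    ⟨_, rfl⟩
  obtain ⟨B, hB⟩ : ∃ B : Set (ℝ × ℝ), B = Icc (-(M - L)) (M - L) ×ˢ Icc (-(M - δ)) (M - δ) :=
    ⟨_, rfl⟩
  have hvol : ∀ a b : ℝ, 0 ≤ a → 0 ≤ b →
      volume.real (Icc (-a) a ×ˢ Icc (-b) b : Set (ℝ × ℝ)) = 4 * (a * b) := by
    intro a b ha hb
    unfold Measure.real
    rw [Measure.volume_eq_prod, Measure.prod_prod, Real.volume_Icc, Real.volume_Icc,
      ← ENNReal.ofReal_mul (by linarith), ENNReal.toReal_ofReal (by nlinarith)]
    ring
  have hAB : A ∩ B = Icc (-(M - L)) (M - L) ×ˢ Icc (-(M - L)) (M - L) := by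
    rw [hA, hB, prod_inter_prod, Icc_inter_Icc, Icc_inter_Icc]
    congr 1
    · rw [sup_of_le_right (by linarith), inf_of_le_right (by linarith)]
    · rw [sup_of_le_left (by linarith), inf_of_le_left (by linarith)]
  have hBm : MeasurableSet B := by rw [hB]; measurability
  have hfA : volume A ≠ ⊤ := by
    rw [hA]
    exact (isCompact_Icc.prod isCompact_Icc).measure_lt_top.ne
  have hfB : volume B ≠ ⊤ := by
    rw [hB]
    exact (isCompact_Icc.prod isCompact_Icc).measure_lt_top.ne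
  have hun := measureReal_union_add_inter hBm hfA hfB
  rw [hAB, hvol _ _ (by linarith) (by linarith)] at hun
  have hvA : volume.real A = 4 * ((M - δ) * (M - L)) := by
    rw [hA, hvol _ _ (by linarith) (by linarith)]
  have hvB : volume.real B = 4 * ((M - δ) * (M - L)) := by
    rw [hB, hvol _ _ (by linarith) (by linarith)]
    ring
  rw [hvA, hvB] at hun
  have hsub : A ∪ B ⊆ Kc E := by
    rintro x (hx | hx)
    · rw [hA, mem_prod, mem_Icc, mem_Icc, ← abs_le, ← abs_le] at hx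
      exact key x (Or.inl hx)
    · rw [hB, mem_prod, mem_Icc, mem_Icc, ← abs_le, ← abs_le] at hx
      exact key x (Or.inr hx)
  have hfin : volume (Kc E) ≠ ⊤ := by
    have hsub2 : Kc E ⊆ Icc (-M) M ×ˢ Icc (-M) M := by
      intro h hh
      have h0 : Lam h ≤ E := hh
      obtain ⟨h1, h2⟩ := Y981.L2.abs_le_Lam h
      rw [mem_prod, mem_Icc, mem_Icc, ← abs_le, ← abs_le]
      exact ⟨by linarith, by linarith⟩
    exact ((measure_mono hsub2).trans_lt (isCompact_Icc.prod isCompact_Icc).measure_lt_top).ne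
  have hle : volume.real (A ∪ B) ≤ V E := measureReal_mono hsub hfin
  nlinarith

end Pool.Agent.H26.WF
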